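import Mathlib

/-!
# Triple systems with many pairs of equal 2 × 2 subgrids
-/

set_option autoImplicit false
set_option linter.unusedSectionVars false
set_option linter.unusedVariables false

namespace Run7.h50.BES

open Finset

/-- any two triples of `T` have at most one coordinate in common -/
structure Lin {X Y Z : Type} (T : Finset (X × Y × Z)) : Prop where
  z : ∀ x y z z', (x, y, z) ∈ T → (x, y, z') ∈ T → z = z'
  y : ∀ x y y' z, (x, y, z) ∈ T → (x, y', z) ∈ T → y = y'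
  x : ∀ x x' y z, (x, y, z) ∈ T → (x', y, z) ∈ T → x = x'

/-- the cells `(p.1, q.1)` and `(p.2, q.2)` have the same symbol -/
def Adj {X Y Z : Type} (T : Finset (X × Y × Z)) (p : X × X) (q : Y × Y) : Prop :=
  p.1 ≠ p.2 ∧ ∃ z, (p.1, q.1, z) ∈ T ∧ (p.2, q.2, z) ∈ T

open Classical in
/-- the number of pairs of `2 × 2` subgrids with different rows and the same symbols -/
noncomputable def Wn {X Y Z : Type} [Fintype X] [Fintype Y] (T : Finset (X × Y × Z)) : ℕ :=
  (univ.filter fun w : ((X × X) × (X × X)) × ((Y × Y) × (Y × Y)) =>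
    Adj T w.1.1 w.2.1 ∧ Adj T w.1.1 w.2.2 ∧ Adj T w.1.2 w.2.1 ∧ Adj T w.1.2 w.2.2).card

section
variable {X Y Z : Type} {T : Finset (X × Y × Z)}

theorem Lin.ext (hT : Lin T) {t t' : X × Y × Z} (h : t ∈ T) (h' : t' ∈ T) (e1 : t.1 = t'.1)
    (e2 : t.2.1 = t'.2.1) : t = t' := by
  obtain ⟨x, y, z⟩ := t
  obtain ⟨x', y', z'⟩ := t'
  simp only at e1 e2
  subst e1
  subst e2
  rw [hT.z _ _ _ _ h h']

theorem Adj.q_left (hT : Lin T) {p : X × X} {q q' : Y × Y} (h : Adj T p q) (h' : Adj T p q')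
    (e : q.1 = q'.1) : q = q' := by
  obtain ⟨_, z, h1, h2⟩ := h
  obtain ⟨_, z', h1', h2'⟩ := h'
  rw [e] at h1
  have hz := hT.z _ _ _ _ h1 h1'
  subst hz
  exact Prod.ext e (hT.y _ _ _ _ h2 h2')

theorem Adj.q_right (hT : Lin T) {p : X × X} {q q' : Y × Y} (h : Adj T p q) (h' : Adj T p q')
    (e : q.2 = q'.2) : q = q' := by
  obtain ⟨_, z, h1, h2⟩ := h
  obtain ⟨_, z', h1', h2'⟩ := h'
  rw [e] at h2
  have hz := hT.z _ _ _ _ h2 h2'
  subst hz
  exact Prod.ext (hT.y _ _ _ _ h1 h1') e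

theorem Adj.p_left (hT : Lin T) {p p' : X × X} {q : Y × Y} (h : Adj T p q) (h' : Adj T p' q)
    (e : p.1 = p'.1) : p = p' := by
  obtain ⟨_, z, h1, h2⟩ := h
  obtain ⟨_, z', h1', h2'⟩ := h'
  rw [e] at h1
  have hz := hT.z _ _ _ _ h1 h1'
  subst hz
  exact Prod.ext e (hT.x _ _ _ _ h2 h2')

theorem Adj.p_right (hT : Lin T) {p p' : X × X} {q : Y × Y} (h : Adj T p q) (h' : Adj T p' q)
    (e : p.2 = p'.2) : p = p' := by
  obtain ⟨_, z, h1, h2⟩ := h
  obtain ⟨_, z', h1', h2'⟩ := h'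
  rw [e] at h2
  have hz := hT.z _ _ _ _ h2 h2'
  subst hz
  exact Prod.ext (hT.x _ _ _ _ h1 h1') e

end

section
variable {X Y Z : Type} [Fintype X] [Fintype Y] [Fintype Z]
  {T : Finset (X × Y × Z)}

open Classical in
theorem deg_q (hT : Lin T) (p : X × X) :
    (univ.filter fun q : Y × Y => Adj T p q).card ≤ Fintype.card Z := by
  have h1 : (univ.filter fun q : Y × Y => Adj T p q) ⊆ (univ : Finset Z).biUnion fun z =>
      univ.filter fun q : Y × Y => (p.1, q.1, z) ∈ T ∧ (p.2, q.2, z) ∈ T := by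
    intro q hq
    obtain ⟨_, z, hz⟩ := (Finset.mem_filter.1 hq).2
    exact Finset.mem_biUnion.2 ⟨z, Finset.mem_univ _, Finset.mem_filter.2 ⟨Finset.mem_univ _, hz⟩⟩
  refine (Finset.card_le_card h1).trans ((Finset.card_biUnion_le_card_mul _ _ 1 ?_).trans (by
    rw [mul_one, Finset.card_univ]))
  intro z _
  rw [Finset.card_le_one]
  intro q hq q' hq'
  have hq := (Finset.mem_filter.1 hq).2
  have hq' := (Finset.mem_filter.1 hq').2
  exact Prod.ext (hT.y _ _ _ _ hq.1 hq'.1) (hT.y _ _ _ _ hq.2 hq'.2)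

open Classical in
theorem deg_p (hT : Lin T) (q : Y × Y) :
    (univ.filter fun p : X × X => Adj T p q).card ≤ Fintype.card Z := by
  have h1 : (univ.filter fun p : X × X => Adj T p q) ⊆ (univ : Finset Z).biUnion fun z =>
      univ.filter fun p : X × X => (p.1, q.1, z) ∈ T ∧ (p.2, q.2, z) ∈ T := by
    intro p hp
    obtain ⟨_, z, hz⟩ := (Finset.mem_filter.1 hp).2
    exact Finset.mem_biUnion.2 ⟨z, Finset.mem_univ _, Finset.mem_filter.2 ⟨Finset.mem_univ _, hz⟩⟩
  refine (Finset.card_le_card h1).trans ((Finset.card_biUnion_le_card_mul _ _ 1 ?_).trans (by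
    rw [mul_one, Finset.card_univ]))
  intro z _
  rw [Finset.card_le_one]
  intro p hp p' hp'
  have hp := (Finset.mem_filter.1 hp).2
  have hp' := (Finset.mem_filter.1 hp').2
  exact Prod.ext (hT.x _ _ _ _ hp.1 hp'.1) (hT.x _ _ _ _ hp.2 hp'.2)

open Classical in
/-- three pairs of rows with many common pairs of columns -/
theorem core (hT : Lin T) (n b : ℕ) (hn : 0 < n) (hb : 1 ≤ b) (hX : Fintype.card X ≤ n)
    (hY : Fintype.card Y ≤ n) (hZ : Fintype.card Z ≤ n) (hW : (b + 12) * n ^ 9 ≤ Wn T ^ 2) :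
    ∃ (p : Fin 3 → X × X) (Q : Finset (Y × Y)), b ≤ Q.card ∧ (∀ i, ∀ q ∈ Q, Adj T (p i) q) ∧
      (∀ i j, i ≠ j → (p i).1 ≠ (p j).1 ∧ (p i).1 ≠ (p j).2 ∧ (p i).2 ≠ (p j).2) := by
  set A : Finset ((X × X) × (Y × Y)) := univ.filter fun a => Adj T a.1 a.2 with hA
  set w : (X × X) × (Y × Y) → ℕ := fun a => (univ.filter fun c : (X × X) × (Y × Y) =>
    Adj T c.1 a.2 ∧ Adj T a.1 c.2 ∧ Adj T c.1 c.2).card with hw
  have hAc : A.card ≤ n ^ 3 := by
    have h1 : A ⊆ (univ : Finset (X × X)).biUnion fun p =>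
        (univ.filter fun q : Y × Y => Adj T p q).image (Prod.mk p) := by
      intro a ha
      rw [hA, Finset.mem_filter] at ha
      refine Finset.mem_biUnion.2 ⟨a.1, Finset.mem_univ _, Finset.mem_image.2 ⟨a.2, ?_, rfl⟩⟩
      exact Finset.mem_filter.2 ⟨Finset.mem_univ _, ha.2⟩
    refine (Finset.card_le_card h1).trans ((Finset.card_biUnion_le_card_mul _ _ n fun p _ =>
      Finset.card_image_le.trans ((deg_q hT p).trans hZ)).trans ?_)
    rw [Finset.card_univ, Fintype.card_prod]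
    calc Fintype.card X * Fintype.card X * n ≤ n * n * n := by gcongr
      _ = n ^ 3 := by ring
  have hWs : Wn T ≤ ∑ a ∈ A, w a := by
    unfold Wn
    rw [Finset.card_eq_sum_card_fiberwise (f := fun c => (c.1.1, c.2.1)) (t := A)]
    · refine Finset.sum_le_sum fun a ha => ?_
      refine Finset.card_le_card_of_injOn (fun c => (c.1.2, c.2.2)) ?_ ?_
      · intro c hc
        have hc := Finset.mem_coe.1 hc
        rw [Finset.mem_filter, Finset.mem_filter] at hc
        obtain ⟨⟨_, h1, h2, h3, h4⟩, rfl⟩ := hc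
        exact Finset.mem_coe.2 (Finset.mem_filter.2 ⟨Finset.mem_univ _, h3, h2, h4⟩)
      · intro c hc c' hc' h
        have hc := (Finset.mem_filter.1 (Finset.mem_coe.1 hc)).2
        have hc' := (Finset.mem_filter.1 (Finset.mem_coe.1 hc')).2
        obtain ⟨e1, e2⟩ := Prod.ext_iff.1 (hc.trans hc'.symm)
        obtain ⟨e3, e4⟩ := Prod.ext_iff.1 h
        exact Prod.ext (Prod.ext e1 e3) (Prod.ext e2 e4)
    · intro c hc
      have hc := Finset.mem_coe.1 hc
      rw [Finset.mem_filter] at hc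
      exact Finset.mem_coe.2 (Finset.mem_filter.2 ⟨Finset.mem_univ _, hc.2.1⟩)
  have hWpos : 0 < Wn T := by
    rcases Nat.eq_zero_or_pos (Wn T) with h | h
    · rw [h] at hW
      have : 0 < (b + 12) * n ^ 9 := by positivity
      simp at hW
      omega
    · exact h
  have hAne : A.Nonempty := by
    rw [Finset.nonempty_iff_ne_empty]
    intro h
    rw [h, Finset.sum_empty] at hWs
    omega
  obtain ⟨a, haA, hmax⟩ := Finset.exists_max_image A w hAne
  obtain ⟨p₁, q₁⟩ := a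
  have h11 : Adj T p₁ q₁ := (Finset.mem_filter.1 haA).2
  have hw1 : Wn T ≤ n ^ 3 * w (p₁, q₁) := by
    refine hWs.trans ((Finset.sum_le_card_nsmul _ _ _ hmax).trans ?_)
    rw [smul_eq_mul]
    gcongr
  have hw2 : (b + 12) * n ^ 3 ≤ w (p₁, q₁) ^ 2 := by
    have h1 : (b + 12) * n ^ 9 ≤ (n ^ 3 * w (p₁, q₁)) ^ 2 := hW.trans (Nat.pow_le_pow_left hw1 2)
    have h2 : (b + 12) * n ^ 3 * n ^ 6 ≤ w (p₁, q₁) ^ 2 * n ^ 6 := by
      calc (b + 12) * n ^ 3 * n ^ 6 = (b + 12) * n ^ 9 := by ring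
        _ ≤ (n ^ 3 * w (p₁, q₁)) ^ 2 := h1
        _ = _ := by ring
    exact Nat.le_of_mul_le_mul_right h2 (by positivity)
  set R : Finset (X × X) := univ.filter fun p => Adj T p q₁ with hR
  set C : Finset (Y × Y) := univ.filter fun q => Adj T p₁ q with hC
  have hRc : R.card ≤ n := (deg_p hT q₁).trans hZ
  have hCc : C.card ≤ n := (deg_q hT p₁).trans hZ
  set dg : Y × Y → ℕ := fun q => (R.filter fun p => Adj T p q).card with hdg
  set cm : (X × X) × (X × X) → ℕ := fun u => (C.filter fun q => Adj T u.1 q ∧ Adj T u.2 q).card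
    with hcm
  have hwd : w (p₁, q₁) ≤ ∑ q ∈ C, dg q := by
    rw [hw]
    simp only
    rw [Finset.card_eq_sum_card_fiberwise (f := Prod.snd) (t := C)]
    · refine Finset.sum_le_sum fun q hq => ?_
      refine Finset.card_le_card_of_injOn (fun c => c.1) ?_ ?_
      · intro c hc
        have hc := Finset.mem_coe.1 hc
        rw [Finset.mem_filter, Finset.mem_filter] at hc
        obtain ⟨⟨_, h1, h2, h3⟩, rfl⟩ := hc
        exact Finset.mem_coe.2 (Finset.mem_filter.2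
          ⟨Finset.mem_filter.2 ⟨Finset.mem_univ _, h1⟩, h3⟩)
      · intro c hc c' hc' h
        have hc := (Finset.mem_filter.1 (Finset.mem_coe.1 hc)).2
        have hc' := (Finset.mem_filter.1 (Finset.mem_coe.1 hc')).2
        exact Prod.ext h (hc.trans hc'.symm)
    · intro c hc
      have hc := Finset.mem_coe.1 hc
      rw [Finset.mem_filter] at hc
      exact Finset.mem_coe.2 (Finset.mem_filter.2 ⟨Finset.mem_univ _, hc.2.2.1⟩)
  have hsum : ∑ q ∈ C, dg q ^ 2 = ∑ u ∈ R ×ˢ R, cm u := by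
    have h1 : ∀ q, dg q ^ 2 = ((R ×ˢ R).filter fun u => Adj T u.1 q ∧ Adj T u.2 q).card := by
      intro q
      rw [hdg]
      simp only
      rw [sq, ← Finset.card_product, ← Finset.filter_product]
    simp only [h1, hcm, Finset.card_filter]
    rw [Finset.sum_comm]
  have hbig : (b + 12) * n ^ 2 ≤ ∑ u ∈ R ×ˢ R, cm u := by
    have h1 : (∑ q ∈ C, dg q) ^ 2 ≤ C.card * ∑ q ∈ C, dg q ^ 2 := sq_sum_le_card_mul_sum_sq
    rw [hsum] at h1
    have h2 : (b + 12) * n ^ 2 * n ≤ (∑ u ∈ R ×ˢ R, cm u) * n := by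
      calc (b + 12) * n ^ 2 * n = (b + 12) * n ^ 3 := by ring
        _ ≤ w (p₁, q₁) ^ 2 := hw2
        _ ≤ (∑ q ∈ C, dg q) ^ 2 := Nat.pow_le_pow_left hwd 2
        _ ≤ C.card * ∑ u ∈ R ×ˢ R, cm u := h1
        _ ≤ n * ∑ u ∈ R ×ˢ R, cm u := Nat.mul_le_mul_right _ hCc
        _ = _ := by ring
    exact Nat.le_of_mul_le_mul_right h2 hn
  set Sh : X × X → Finset (X × X) := fun p₀ => R.filter fun p =>
    p.1 = p₀.1 ∨ p.1 = p₀.2 ∨ p.2 = p₀.1 ∨ p.2 = p₀.2 with hSh
  have hShc : ∀ p₀, (Sh p₀).card ≤ 4 := by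
    intro p₀
    have h1 : Sh p₀ ⊆ ((R.filter fun p => p.1 = p₀.1) ∪ (R.filter fun p => p.1 = p₀.2)) ∪
        ((R.filter fun p => p.2 = p₀.1) ∪ (R.filter fun p => p.2 = p₀.2)) := by
      intro p hp
      rw [hSh] at hp
      simp only [Finset.mem_filter] at hp
      simp only [Finset.mem_union, Finset.mem_filter]
      tauto
    have h2 : ∀ v, (R.filter fun p => p.1 = v).card ≤ 1 := by
      intro v
      rw [Finset.card_le_one]
      intro p hp p' hp'
      rw [Finset.mem_filter, hR, Finset.mem_filter] at hp hp'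
      exact Adj.p_left hT hp.1.2 hp'.1.2 (hp.2.trans hp'.2.symm)
    have h3 : ∀ v, (R.filter fun p => p.2 = v).card ≤ 1 := by
      intro v
      rw [Finset.card_le_one]
      intro p hp p' hp'
      rw [Finset.mem_filter, hR, Finset.mem_filter] at hp hp'
      exact Adj.p_right hT hp.1.2 hp'.1.2 (hp.2.trans hp'.2.symm)
    refine (Finset.card_le_card h1).trans ((Finset.card_union_le _ _).trans ?_)
    have e1 := Finset.card_union_le (R.filter fun p => p.1 = p₀.1) (R.filter fun p => p.1 = p₀.2)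
    have e2 := Finset.card_union_le (R.filter fun p => p.2 = p₀.1) (R.filter fun p => p.2 = p₀.2)
    have e3 := h2 p₀.1
    have e4 := h2 p₀.2
    have e5 := h3 p₀.1
    have e6 := h3 p₀.2
    omega
  have hex : ∃ u ∈ R ×ˢ R, (u.1 ∉ Sh p₁ ∧ u.2 ∉ Sh p₁ ∧ u.2 ∉ Sh u.1) ∧ b ≤ cm u := by
    by_contra hcon
    push Not at hcon
    have hb1 : ((R ×ˢ R).filter fun u => ¬ (u.1 ∉ Sh p₁ ∧ u.2 ∉ Sh p₁ ∧ u.2 ∉ Sh u.1)).card ≤
        12 * n := by
      have h1 : ((R ×ˢ R).filter fun u => ¬ (u.1 ∉ Sh p₁ ∧ u.2 ∉ Sh p₁ ∧ u.2 ∉ Sh u.1)) ⊆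
          ((Sh p₁ ×ˢ R) ∪ (R ×ˢ Sh p₁)) ∪ R.biUnion fun p => (Sh p).image (Prod.mk p) := by
        intro u hu
        rw [Finset.mem_filter, Finset.mem_product] at hu
        simp only [Finset.mem_union, Finset.mem_product]
        by_cases e1 : u.1 ∈ Sh p₁
        · exact Or.inl (Or.inl ⟨e1, hu.1.2⟩)
        · by_cases e2 : u.2 ∈ Sh p₁
          · exact Or.inl (Or.inr ⟨hu.1.1, e2⟩)
          · have e3 : u.2 ∈ Sh u.1 := by
              by_contra e3
              exact hu.2 ⟨e1, e2, e3⟩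
            exact Or.inr (Finset.mem_biUnion.2 ⟨u.1, hu.1.1, Finset.mem_image.2 ⟨u.2, e3, rfl⟩⟩)
      refine (Finset.card_le_card h1).trans ((Finset.card_union_le _ _).trans ?_)
      have e1 : (Sh p₁ ×ˢ R).card ≤ 4 * n := by
        rw [Finset.card_product]
        exact Nat.mul_le_mul (hShc p₁) hRc
      have e2 : (R ×ˢ Sh p₁).card ≤ n * 4 := by
        rw [Finset.card_product]
        exact Nat.mul_le_mul hRc (hShc p₁)
      have e3 : (R.biUnion fun p => (Sh p).image (Prod.mk p)).card ≤ n * 4 :=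
        (Finset.card_biUnion_le_card_mul _ _ 4 fun p _ =>
          Finset.card_image_le.trans (hShc p)).trans (Nat.mul_le_mul_right _ hRc)
      have e4 := Finset.card_union_le (Sh p₁ ×ˢ R) (R ×ˢ Sh p₁)
      omega
    have hcmn : ∀ u, cm u ≤ n := fun u => (Finset.card_filter_le _ _).trans hCc
    have h2 := Finset.sum_filter_add_sum_filter_not (R ×ˢ R)
      (fun u => u.1 ∉ Sh p₁ ∧ u.2 ∉ Sh p₁ ∧ u.2 ∉ Sh u.1) cm
    have h3 : ∑ u ∈ (R ×ˢ R).filter (fun u => u.1 ∉ Sh p₁ ∧ u.2 ∉ Sh p₁ ∧ u.2 ∉ Sh u.1), cm u ≤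
        n * n * (b - 1) := by
      refine (Finset.sum_le_card_nsmul _ _ (b - 1) fun u hu => ?_).trans ?_
      · rw [Finset.mem_filter] at hu
        have := hcon u hu.1 hu.2
        omega
      · rw [smul_eq_mul]
        refine Nat.mul_le_mul_right _ ((Finset.card_filter_le _ _).trans ?_)
        rw [Finset.card_product]
        exact Nat.mul_le_mul hRc hRc
    have h4 : ∑ u ∈ (R ×ˢ R).filter (fun u => ¬ (u.1 ∉ Sh p₁ ∧ u.2 ∉ Sh p₁ ∧ u.2 ∉ Sh u.1)), cm u ≤
        12 * n * n := by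
      refine (Finset.sum_le_card_nsmul _ _ n fun u _ => hcmn u).trans ?_
      rw [smul_eq_mul]
      exact Nat.mul_le_mul_right _ hb1
    rw [← h2] at hbig
    obtain ⟨c, rfl⟩ := Nat.exists_eq_add_of_le hb
    have h5 : (1 + c + 12) * n ^ 2 ≤ n * n * (1 + c - 1) + 12 * n * n := hbig.trans (Nat.add_le_add h3 h4)
    have h6 : 1 + c - 1 = c := by omega
    rw [h6] at h5
    have h7 : 0 < n ^ 2 := by positivity
    nlinarith
  obtain ⟨u, huR, ⟨hu1, hu2, hu3⟩, hub⟩ := hex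
  obtain ⟨p₂, p₃⟩ := u
  rw [Finset.mem_product] at huR
  have hp2 : Adj T p₂ q₁ := (Finset.mem_filter.1 huR.1).2
  have hp3 : Adj T p₃ q₁ := (Finset.mem_filter.1 huR.2).2
  simp only [hSh, Finset.mem_filter, not_and, not_or] at hu1 hu2 hu3
  obtain ⟨a1, a2, a3, a4⟩ := hu1 huR.1
  obtain ⟨b1, b2, b3, b4⟩ := hu2 huR.2
  obtain ⟨c1, c2, c3, c4⟩ := hu3 huR.2
  refine ⟨![p₁, p₂, p₃], C.filter fun q => Adj T p₂ q ∧ Adj T p₃ q, hub, ?_, ?_⟩
  · intro i q hq
    rw [Finset.mem_filter, hC, Finset.mem_filter] at hq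
    fin_cases i
    · exact hq.1.2
    · exact hq.2.1
    · exact hq.2.2
  · intro i j hij
    fin_cases i <;> fin_cases j
    · exact absurd rfl hij
    · exact ⟨fun h => a1 h.symm, fun h => a3 h.symm, fun h => a4 h.symm⟩
    · exact ⟨fun h => b1 h.symm, fun h => b3 h.symm, fun h => b4 h.symm⟩
    · exact ⟨a1, a2, a4⟩
    · exact absurd rfl hij
    · exact ⟨fun h => c1 h.symm, fun h => c3 h.symm, fun h => c4 h.symm⟩
    · exact ⟨b1, b2, b4⟩
    · exact ⟨c1, c2, c4⟩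
    · exact absurd rfl hij

end

end Run7.h50.BES
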