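import Mathlib
import Pool.Agent.Run7.h50.BES.Box

/-!
# Configurations in boxes, and triple systems labelled by groups
-/

set_option autoImplicit false
set_option linter.unusedSectionVars false
set_option linter.unusedVariables false

namespace Run7.h50.BES

open Finset

section
variable {X Y Z : Type} {T : Finset (X × Y × Z)}

/-- the box with three pairs of rows contains configurations of `e` triples with at most `e + 3`
coordinates -/
theorem shape [DecidableEq X] [DecidableEq Y] [DecidableEq Z] (hT : Lin T) (e : ℕ)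
    (he : e = 18 ∨ 22 ≤ e) (p : Fin 3 → X × X) (Q : Finset (Y × Y))
    (hQ : e ≤ Q.card) (hadj : ∀ i, ∀ q ∈ Q, Adj T (p i) q)
    (hdist : ∀ i j, i ≠ j → (p i).1 ≠ (p j).1 ∧ (p i).1 ≠ (p j).2 ∧ (p i).2 ≠ (p j).2) :
    ∃ T' ⊆ T, T'.card = e ∧ (T'.image fun t => t.1).card + (T'.image fun t => t.2.1).card +
      (T'.image fun t => t.2.2).card ≤ e + 3 := by
  classical
  have he0 : 0 < e := by omega
  -- the columns
  obtain ⟨q, hq, hqi⟩ : ∃ q : ℕ → Y × Y, (∀ j < e, q j ∈ Q) ∧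
      (∀ j < e, ∀ j' < e, q j = q j' → j = j') := by
    have h1 : Fintype.card (Fin e) ≤ Fintype.card Q := by
      rw [Fintype.card_fin, Fintype.card_coe]
      exact hQ
    obtain ⟨f⟩ := Function.Embedding.nonempty_of_card_le h1
    refine ⟨fun j => if h : j < e then (f ⟨j, h⟩ : Y × Y) else (f ⟨0, he0⟩ : Y × Y), ?_, ?_⟩
    · intro j hj
      simp only [dif_pos hj]
      exact (f ⟨j, hj⟩).2
    · intro j hj j' hj' h
      simp only [dif_pos hj, dif_pos hj'] at h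
      have := f.injective (Subtype.ext h)
      exact congrArg Fin.val this
  have hz : ∀ (i : Fin 3) (j : ℕ), ∃ z : Z, j < e →
      ((p i).1, (q j).1, z) ∈ T ∧ ((p i).2, (q j).2, z) ∈ T := by
    intro i j
    by_cases hj : j < e
    · obtain ⟨_, z, hz⟩ := hadj i _ (hq j hj)
      exact ⟨z, fun _ => hz⟩
    · obtain ⟨_, z, hz⟩ := hadj i _ (hq 0 he0)
      exact ⟨z, fun h => absurd h hj⟩
  choose z hz using hz
  set xc : Fin 3 → ℕ → X := fun i l => if l = 0 then (p i).1 else (p i).2 with hxc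
  set yc : ℕ → ℕ → Y := fun j l => if l = 0 then (q j).1 else (q j).2 with hyc
  have hi : ∀ t : ℕ, t % 6 / 2 < 3 := fun t => by omega
  set tr : ℕ → X × Y × Z := fun t =>
    (xc ⟨t % 6 / 2, hi t⟩ (t % 2), yc (t / 6) (t % 2), z ⟨t % 6 / 2, hi t⟩ (t / 6)) with htr
  have htrT : ∀ t < e, tr t ∈ T := by
    intro t ht
    have h1 := hz ⟨t % 6 / 2, hi t⟩ (t / 6) (by omega)
    rw [htr]
    simp only [hxc, hyc]
    rcases Nat.mod_two_eq_zero_or_one t with h | h
    · rw [if_pos h, if_pos h]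
      exact h1.1
    · rw [if_neg (by omega), if_neg (by omega)]
      exact h1.2
  have hxinj : ∀ (i i' : Fin 3) (l l' : ℕ), l < 2 → l' < 2 → xc i l = xc i' l' → i = i' ∧ l = l' := by
    intro i i' l l' hl hl' h
    have hd : ∀ i, (p i).1 ≠ (p i).2 := fun i => (hadj i _ (hq 0 he0)).1
    by_cases hii : i = i'
    · subst hii
      refine ⟨rfl, ?_⟩
      rw [hxc] at h
      simp only at h
      split_ifs at h with h1 h2 h2
      · omega
      · exact absurd h (hd i)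
      · exact absurd h.symm (hd i)
      · omega
    · exfalso
      obtain ⟨d1, d2, d3⟩ := hdist i i' hii
      obtain ⟨d1', d2', d3'⟩ := hdist i' i (Ne.symm hii)
      rw [hxc] at h
      simp only at h
      split_ifs at h with h1 h2 h2
      · exact d1 h
      · exact d2 h
      · exact d2' h.symm
      · exact d3 h
  have hinj : ∀ t < e, ∀ t' < e, tr t = tr t' → t = t' := by
    intro t ht t' ht' h
    rw [htr] at h
    simp only [Prod.mk.injEq] at h
    obtain ⟨h1, h2, -⟩ := h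
    obtain ⟨e1, e2⟩ := hxinj _ _ _ _ (Nat.mod_lt _ (by norm_num)) (Nat.mod_lt _ (by norm_num)) h1
    have e1 : t % 6 / 2 = t' % 6 / 2 := congrArg Fin.val e1
    have hq' : q (t / 6) = q (t' / 6) := by
      have a1 := hadj 0 _ (hq (t / 6) (by omega))
      have a2 := hadj 0 _ (hq (t' / 6) (by omega))
      rw [hyc] at h2
      simp only [← e2] at h2
      split_ifs at h2 with h3
      · exact Adj.q_left hT a1 a2 h2
      · exact Adj.q_right hT a1 a2 h2
    have := hqi _ (by omega) _ (by omega) hq'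
    omega
  refine ⟨(Finset.range e).image tr, ?_, ?_, ?_⟩
  · intro s hs
    obtain ⟨t, ht, rfl⟩ := Finset.mem_image.1 hs
    exact htrT t (Finset.mem_range.1 ht)
  · rw [Finset.card_image_of_injOn, Finset.card_range]
    intro t ht t' ht' h
    exact hinj t (Finset.mem_range.1 (Finset.mem_coe.1 ht)) t' (Finset.mem_range.1 (Finset.mem_coe.1 ht')) h
  · have c1 : (((Finset.range e).image tr).image fun t => t.1).card ≤ 6 := by
      have h1 : (((Finset.range e).image tr).image fun t => t.1) ⊆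
          (univ : Finset (Fin 3 × Fin 2)).image fun il => xc il.1 il.2 := by
        intro x hx
        obtain ⟨s, hs, rfl⟩ := Finset.mem_image.1 hx
        obtain ⟨t, ht, rfl⟩ := Finset.mem_image.1 hs
        exact Finset.mem_image.2 ⟨(⟨t % 6 / 2, hi t⟩, ⟨t % 2, Nat.mod_lt _ (by norm_num)⟩),
          Finset.mem_univ _, rfl⟩
      refine (Finset.card_le_card h1).trans (Finset.card_image_le.trans ?_)
      simp
    have c2 : (((Finset.range e).image tr).image fun t => t.2.1).card ≤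
        2 * (e / 6) + min (e % 6) 2 := by
      have h1 : (((Finset.range e).image tr).image fun t => t.2.1) ⊆
          (Finset.range (2 * (e / 6) + min (e % 6) 2)).image fun s => yc (s / 2) (s % 2) := by
        intro x hx
        obtain ⟨s, hs, rfl⟩ := Finset.mem_image.1 hx
        obtain ⟨t, ht, rfl⟩ := Finset.mem_image.1 hs
        rw [Finset.mem_range] at ht
        refine Finset.mem_image.2 ⟨2 * (t / 6) + t % 2, Finset.mem_range.2 (by omega), ?_⟩
        have e1 : (2 * (t / 6) + t % 2) / 2 = t / 6 := by omega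
        have e2 : (2 * (t / 6) + t % 2) % 2 = t % 2 := by omega
        show yc _ _ = yc (t / 6) (t % 2)
        rw [e1, e2]
      refine (Finset.card_le_card h1).trans (Finset.card_image_le.trans ?_)
      rw [Finset.card_range]
    have c3 : (((Finset.range e).image tr).image fun t => t.2.2).card ≤
        3 * (e / 6) + (e % 6 + 1) / 2 := by
      have h1 : (((Finset.range e).image tr).image fun t => t.2.2) ⊆
          (Finset.range (3 * (e / 6) + (e % 6 + 1) / 2)).image fun s =>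
            z ⟨s % 3, Nat.mod_lt _ (by norm_num)⟩ (s / 3) := by
        intro x hx
        obtain ⟨s, hs, rfl⟩ := Finset.mem_image.1 hx
        obtain ⟨t, ht, rfl⟩ := Finset.mem_image.1 hs
        rw [Finset.mem_range] at ht
        refine Finset.mem_image.2 ⟨3 * (t / 6) + t % 6 / 2, Finset.mem_range.2 (by omega), ?_⟩
        have e1 : (3 * (t / 6) + t % 6 / 2) / 3 = t / 6 := by omega
        have e2 : (3 * (t / 6) + t % 6 / 2) % 3 = t % 6 / 2 := by omega
        show z ⟨(3 * (t / 6) + t % 6 / 2) % 3, _⟩ _ = z ⟨t % 6 / 2, hi t⟩ (t / 6)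
        rw [e1]
        congr 1
        exact Fin.ext e2
      refine (Finset.card_le_card h1).trans (Finset.card_image_le.trans ?_)
      rw [Finset.card_range]
    omega

end

theorem card_sq_le {α β : Type} [DecidableEq α] [DecidableEq β] (A : Finset α) (f : α → β) (N : ℕ)
    (h : (A.image f).card ≤ N) :
    A.card ^ 2 ≤ N * ((A ×ˢ A).filter fun p => f p.1 = f p.2).card := by
  have h1 : A.card = ∑ b ∈ A.image f, (A.filter fun a => f a = b).card :=
    Finset.card_eq_sum_card_image f A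
  have h2 : ((A ×ˢ A).filter fun p => f p.1 = f p.2).card =
      ∑ b ∈ A.image f, (A.filter fun a => f a = b).card ^ 2 := by
    rw [Finset.card_eq_sum_card_fiberwise (f := fun p => f p.1) (t := A.image f)]
    · refine Finset.sum_congr rfl fun b _ => ?_
      rw [sq, ← Finset.card_product]
      congr 1
      ext p
      simp only [Finset.mem_filter, Finset.mem_product]
      constructor
      · rintro ⟨⟨⟨a1, a2⟩, a3⟩, a4⟩
        exact ⟨⟨a1, a4⟩, a2, by rw [← a3]; exact a4⟩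
      · rintro ⟨⟨a1, a2⟩, a3, a4⟩
        exact ⟨⟨⟨a1, a3⟩, by rw [a2, a4]⟩, a2⟩
    · intro p hp
      have hp := Finset.mem_coe.1 hp
      rw [Finset.mem_filter, Finset.mem_product] at hp
      exact Finset.mem_coe.2 (Finset.mem_image_of_mem _ hp.1.1)
  rw [h2, h1]
  refine le_trans sq_sum_le_card_mul_sum_sq ?_
  exact Nat.mul_le_mul_right _ h

section
variable {X Y Z : Type} [Fintype X] [Fintype Y] [Fintype Z] [DecidableEq X] [DecidableEq Y]
  [DecidableEq Z] {T : Finset (X × Y × Z)}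

/-- If the fourth symbol of a `2 × 2` subgrid is one of at most `d` symbols determined by the other
three, there are many pairs of equal subgrids. -/
theorem labels (hT : Lin T) (n d : ℕ) (hX : Fintype.card X ≤ n) (hY : Fintype.card Y ≤ n)
    (hZ : Fintype.card Z ≤ n) (F : Z × Z × Z → Finset Z) (hF : ∀ u, (F u).card ≤ d)
    (hlab : ∀ x x' y y' z₁ z₂ z₃ z₄, (x, y, z₁) ∈ T → (x, y', z₂) ∈ T → (x', y, z₃) ∈ T →
      (x', y', z₄) ∈ T → z₄ ∈ F (z₁, z₂, z₃)) :
    T.card ^ 8 ≤ n ^ 11 * d * (Wn T + n ^ 4) := by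
  classical
  set P2 := (T ×ˢ T).filter fun u => u.1.1 = u.2.1 with hP2
  set f3 : (X × Y × Z) × (X × Y × Z) → Y × Y := fun u => (u.1.2.1, u.2.2.1) with hf3
  set P3 := (P2 ×ˢ P2).filter fun u => f3 u.1 = f3 u.2 with hP3
  set lab : ((X × Y × Z) × (X × Y × Z)) × ((X × Y × Z) × (X × Y × Z)) → Z × Z × Z × Z := fun u =>
    (u.1.1.2.2, u.1.2.2.2, u.2.1.2.2, u.2.2.2.2) with hl
  set P4 := (P3 ×ˢ P3).filter fun u => lab u.1 = lab u.2 with hP4
  have s1 : T.card ^ 2 ≤ n * P2.card := by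
    refine card_sq_le T (fun t => t.1) n ((Finset.card_le_univ _).trans hX)
  have s2 : P2.card ^ 2 ≤ n ^ 2 * P3.card := by
    refine card_sq_le P2 f3 (n ^ 2) ((Finset.card_le_univ _).trans ?_)
    rw [Fintype.card_prod, sq]
    exact Nat.mul_le_mul hY hY
  have s3 : P3.card ^ 2 ≤ (n ^ 3 * d) * P4.card := by
    refine card_sq_le P3 lab (n ^ 3 * d) ?_
    have h1 : P3.image lab ⊆ (univ : Finset (Z × Z × Z)).biUnion fun v =>
        (F v).image fun z₄ => (v.1, v.2.1, v.2.2, z₄) := by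
      intro l hl'
      obtain ⟨u, hu, rfl⟩ := Finset.mem_image.1 hl'
      rw [hP3, Finset.mem_filter, Finset.mem_product, hP2, Finset.mem_filter, Finset.mem_product,
        Finset.mem_filter, Finset.mem_product] at hu
      obtain ⟨⟨⟨x1, y1, z1⟩, ⟨x2, y2, z2⟩⟩, ⟨⟨x3, y3, z3⟩, ⟨x4, y4, z4⟩⟩⟩ := u
      simp only [hf3, Prod.mk.injEq] at hu
      obtain ⟨⟨⟨⟨a1, a2⟩, a3⟩, ⟨a4, a5⟩, a6⟩, a7, a8⟩ := hu
      subst a3
      subst a6
      subst a7
      subst a8
      refine Finset.mem_biUnion.2 ⟨(z1, z2, z3), Finset.mem_univ _, Finset.mem_image.2 ⟨z4, ?_, rfl⟩⟩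
      exact hlab _ _ _ _ _ _ _ _ a1 a2 a4 a5
    refine (Finset.card_le_card h1).trans ((Finset.card_biUnion_le_card_mul _ _ d fun v _ =>
      Finset.card_image_le.trans (hF v)).trans ?_)
    rw [Finset.card_univ, Fintype.card_prod, Fintype.card_prod]
    refine Nat.mul_le_mul_right _ ?_
    calc Fintype.card Z * (Fintype.card Z * Fintype.card Z) ≤ n * (n * n) := by gcongr
      _ = n ^ 3 := by ring
  have s4 : P4.card ≤ Wn T + n ^ 4 := by
    set G : (((X × Y × Z) × (X × Y × Z)) × ((X × Y × Z) × (X × Y × Z))) ×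
        (((X × Y × Z) × (X × Y × Z)) × ((X × Y × Z) × (X × Y × Z))) →
        ((X × X) × (X × X)) × ((Y × Y) × (Y × Y)) := fun u =>
      (((u.1.1.1.1, u.2.1.1.1), (u.1.2.1.1, u.2.2.1.1)),
        ((u.1.1.1.2.1, u.2.1.1.2.1), (u.1.1.2.2.1, u.2.1.2.2.1))) with hG
    have hGi : Set.InjOn G P4 := by
      rintro ⟨⟨⟨⟨x1, y1, z1⟩, ⟨x2, y2, z2⟩⟩, ⟨⟨x3, y3, z3⟩, ⟨x4, y4, z4⟩⟩⟩,
        ⟨⟨⟨x1', y1', z1'⟩, ⟨x2', y2', z2'⟩⟩, ⟨⟨x3', y3', z3'⟩, ⟨x4', y4', z4'⟩⟩⟩⟩ hu
        ⟨⟨⟨⟨v1, w1, s1⟩, ⟨v2, w2, s2⟩⟩, ⟨⟨v3, w3, s3⟩, ⟨v4, w4, s4⟩⟩⟩,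
        ⟨⟨⟨v1', w1', s1'⟩, ⟨v2', w2', s2'⟩⟩, ⟨⟨v3', w3', s3'⟩, ⟨v4', w4', s4'⟩⟩⟩⟩ hv h
      have hu := Finset.mem_coe.1 hu
      have hv := Finset.mem_coe.1 hv
      simp only [hP4, hP3, hP2, hf3, hl, Finset.mem_filter, Finset.mem_product, Prod.mk.injEq] at hu hv
      simp only [hG, Prod.mk.injEq] at h
      obtain ⟨⟨⟨⟨⟨⟨a1, a2⟩, a3⟩, ⟨a4, a5⟩, a6⟩, a7, a8⟩, ⟨⟨⟨a9, a10⟩, a11⟩, ⟨a12, a13⟩, a14⟩, a15, a16⟩,
        a17, a18, a19, a20⟩ := hu
      obtain ⟨⟨⟨⟨⟨⟨b1, b2⟩, b3⟩, ⟨b4, b5⟩, b6⟩, b7, b8⟩, ⟨⟨⟨b9, b10⟩, b11⟩, ⟨b12, b13⟩, b14⟩, b15, b16⟩,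
        b17, b18, b19, b20⟩ := hv
      obtain ⟨⟨⟨g1, g2⟩, g3, g4⟩, ⟨g5, g6⟩, g7, g8⟩ := h
      subst a3 a6 a7 a8 a11 a14 a15 a16 b3 b6 b7 b8 b11 b14 b15 b16
      subst g1 g2 g3 g4 g5 g6 g7 g8
      have r1 := hT.z _ _ _ _ a1 b1
      have r2 := hT.z _ _ _ _ a2 b2
      have r3 := hT.z _ _ _ _ a4 b4
      have r4 := hT.z _ _ _ _ a5 b5
      have r5 := hT.z _ _ _ _ a9 b9
      have r6 := hT.z _ _ _ _ a10 b10
      have r7 := hT.z _ _ _ _ a12 b12
      have r8 := hT.z _ _ _ _ a13 b13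
      rw [r1, r2, r3, r4, r5, r6, r7, r8]
    set Dg : Finset (((X × X) × (X × X)) × ((Y × Y) × (Y × Y))) :=
      (univ : Finset ((X × X) × (Y × Y))).image fun c =>
        (((c.1.1, c.1.1), (c.1.2, c.1.2)), ((c.2.1, c.2.1), (c.2.2, c.2.2))) with hDg
    have hsub : P4.image G ⊆ (univ.filter fun w : ((X × X) × (X × X)) × ((Y × Y) × (Y × Y)) =>
        Adj T w.1.1 w.2.1 ∧ Adj T w.1.1 w.2.2 ∧ Adj T w.1.2 w.2.1 ∧ Adj T w.1.2 w.2.2) ∪ Dg := by
      intro w hw
      obtain ⟨u, hu, rfl⟩ := Finset.mem_image.1 hw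
      obtain ⟨⟨⟨⟨x1, y1, z1⟩, ⟨x2, y2, z2⟩⟩, ⟨⟨x3, y3, z3⟩, ⟨x4, y4, z4⟩⟩⟩,
        ⟨⟨⟨x1', y1', z1'⟩, ⟨x2', y2', z2'⟩⟩, ⟨⟨x3', y3', z3'⟩, ⟨x4', y4', z4'⟩⟩⟩⟩ := u
      simp only [hP4, hP3, hP2, hf3, hl, Finset.mem_filter, Finset.mem_product, Prod.mk.injEq] at hu
      obtain ⟨⟨⟨⟨⟨⟨a1, a2⟩, a3⟩, ⟨a4, a5⟩, a6⟩, a7, a8⟩, ⟨⟨⟨a9, a10⟩, a11⟩, ⟨a12, a13⟩, a14⟩, a15, a16⟩,
        a17, a18, a19, a20⟩ := hu
      subst a3 a6 a7 a8 a11 a14 a15 a16 a17 a18 a19 a20
      rw [Finset.mem_union]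
      simp only [hG]
      by_cases h1 : x1 = x1'
      · right
        subst h1
        have e1 := hT.y _ _ _ _ a1 a9
        have e2 := hT.y _ _ _ _ a2 a10
        subst e1
        subst e2
        have e3 := hT.x _ _ _ _ a4 a12
        subst e3
        exact Finset.mem_image.2 ⟨((x1, x3), (y1, y2)), Finset.mem_univ _, rfl⟩
      · by_cases h3 : x3 = x3'
        · exfalso
          subst h3
          have e1 := hT.y _ _ _ _ a4 a12
          subst e1
          exact h1 (hT.x _ _ _ _ a1 a9)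
        · left
          refine Finset.mem_filter.2 ⟨Finset.mem_univ _, ⟨h1, _, a1, a9⟩, ⟨h1, _, a2, a10⟩,
            ⟨h3, _, a4, a12⟩, ⟨h3, _, a5, a13⟩⟩
    rw [← Finset.card_image_of_injOn hGi]
    refine (Finset.card_le_card hsub).trans ((Finset.card_union_le _ _).trans ?_)
    refine Nat.add_le_add ?_ ?_
    · unfold Wn
      refine le_of_eq ?_
      congr 1
    · refine Finset.card_image_le.trans ?_
      rw [Finset.card_univ, Fintype.card_prod, Fintype.card_prod, Fintype.card_prod]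
      calc Fintype.card X * Fintype.card X * (Fintype.card Y * Fintype.card Y) ≤ n * n * (n * n) := by
            gcongr
        _ = n ^ 4 := by ring
  calc T.card ^ 8 = ((T.card ^ 2) ^ 2) ^ 2 := by ring
    _ ≤ ((n * P2.card) ^ 2) ^ 2 := by gcongr
    _ = (n ^ 2 * P2.card ^ 2) ^ 2 := by ring
    _ ≤ (n ^ 2 * (n ^ 2 * P3.card)) ^ 2 := by gcongr
    _ = n ^ 8 * P3.card ^ 2 := by ring
    _ ≤ n ^ 8 * ((n ^ 3 * d) * P4.card) := by gcongr
    _ = n ^ 11 * d * P4.card := by ring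
    _ ≤ n ^ 11 * d * (Wn T + n ^ 4) := by gcongr

/-- **Configurations in triple systems with few labels.** -/
theorem few_labels (hT : Lin T) (n d e : ℕ) (hn : 0 < n) (he : e = 18 ∨ 22 ≤ e)
    (hX : Fintype.card X ≤ n) (hY : Fintype.card Y ≤ n) (hZ : Fintype.card Z ≤ n)
    (F : Z × Z × Z → Finset Z) (hF : ∀ u, (F u).card ≤ d)
    (hlab : ∀ x x' y y' z₁ z₂ z₃ z₄, (x, y, z₁) ∈ T → (x, y', z₂) ∈ T → (x', y, z₃) ∈ T →
      (x', y', z₄) ∈ T → z₄ ∈ F (z₁, z₂, z₃))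
    (hm : 4 * (e + 12) * d ^ 2 * n ^ 31 < T.card ^ 16) :
    ∃ T' ⊆ T, T'.card = e ∧ (T'.image fun t => t.1).card + (T'.image fun t => t.2.1).card +
      (T'.image fun t => t.2.2).card ≤ e + 3 := by
  have h1 := labels hT n d hX hY hZ F hF hlab
  have hW : (e + 12) * n ^ 9 ≤ Wn T ^ 2 := by
    by_contra hcon
    push Not at hcon
    have h2 : T.card ^ 16 ≤ 4 * (e + 12) * d ^ 2 * n ^ 31 := by
      calc T.card ^ 16 = (T.card ^ 8) ^ 2 := by ring
        _ ≤ (n ^ 11 * d * (Wn T + n ^ 4)) ^ 2 := by gcongr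
        _ = n ^ 22 * d ^ 2 * (Wn T + n ^ 4) ^ 2 := by ring
        _ ≤ n ^ 22 * d ^ 2 * (4 * (e + 12) * n ^ 9) := by
            refine Nat.mul_le_mul_left _ ?_
            have h3 : (Wn T + n ^ 4) ^ 2 ≤ 2 * Wn T ^ 2 + 2 * (n ^ 4) ^ 2 := by
              zify
              nlinarith [sq_nonneg ((Wn T : ℤ) - (n : ℤ) ^ 4)]
            have h4 : (n ^ 4) ^ 2 ≤ n ^ 9 := by
              rw [← pow_mul]
              exact Nat.pow_le_pow_right hn (by norm_num)
            have h5 : n ^ 9 ≤ (e + 12) * n ^ 9 := Nat.le_mul_of_pos_left _ (by omega)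
            calc (Wn T + n ^ 4) ^ 2 ≤ 2 * Wn T ^ 2 + 2 * (n ^ 4) ^ 2 := h3
              _ ≤ 2 * ((e + 12) * n ^ 9) + 2 * ((e + 12) * n ^ 9) := by
                  refine Nat.add_le_add (Nat.mul_le_mul_left _ hcon.le) (Nat.mul_le_mul_left _ ?_)
                  exact h4.trans h5
              _ = 4 * (e + 12) * n ^ 9 := by ring
        _ = _ := by ring
    omega
  obtain ⟨p, Q, hQ, hadj, hdist⟩ := core hT n e hn (by omega) hX hY hZ hW
  exact shape hT e he p Q hQ hadj hdist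

end

end Run7.h50.BES
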