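import Mathlib
import Pool.Agent.Run7.h50.BES.ICS
import Pool.Agent.H217R3.AK.Graph

/-!
# Dense parts of product sets in arbitrary groups
-/

set_option autoImplicit false
set_option linter.unusedSectionVars false
set_option linter.unusedVariables false

namespace Run7.h50.BES.Inf

open Finset
open scoped Pointwise

theorem card_pairs {α β : Type} [DecidableEq α] [DecidableEq β] (A : Finset α) (f : α → β) :
    ((A ×ˢ A).filter fun p => f p.1 = f p.2).card =
      ∑ b ∈ A.image f, (A.filter fun a => f a = b).card ^ 2 := by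
  rw [Finset.card_eq_sum_card_fiberwise (f := fun p => f p.1) (t := A.image f)]
  · refine Finset.sum_congr rfl fun b _ => ?_
    rw [sq, ← Finset.card_product]
    congr 1
    ext p
    simp only [Finset.mem_filter, Finset.mem_product]
    constructor
    · rintro ⟨⟨⟨a1, a2⟩, a3⟩, a4⟩
      exact ⟨⟨a1, a4⟩, a2, by rw [← a3]; exact a4⟩
    · rintro ⟨⟨a1, a2⟩, a3, a4⟩
      exact ⟨⟨⟨a1, a3⟩, by rw [a2, a4]⟩, a2⟩
  · intro p hp
    have hp := Finset.mem_coe.1 hp
    rw [Finset.mem_filter, Finset.mem_product] at hp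
    exact Finset.mem_coe.2 (Finset.mem_image_of_mem _ hp.1.1)

section
variable {G : Type} [AddGroup G] [DecidableEq G]

/-- the elements of `A` with `a + x ∈ A` -/
def Rp (A : Finset G) (x : G) : Finset G := A.filter fun a => a + x ∈ A

theorem cr_eq (A : Finset G) (x : G) : cr A x = (Rp A x).card := by
  unfold cr Rp ind
  rw [Finset.sum_boole]

theorem cr_neg (A : Finset G) (x : G) : cr A (-x) = cr A x := by
  rw [cr_eq, cr_eq]
  congr 1
  refine Finset.card_bij (fun a _ => a + -x) ?_ ?_ ?_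
  · intro a ha
    unfold Rp at ha ⊢
    rw [Finset.mem_filter] at ha ⊢
    exact ⟨ha.2, by simpa using ha.1⟩
  · intro a _ b _ h
    exact add_right_cancel h
  · intro b hb
    unfold Rp at hb ⊢
    rw [Finset.mem_filter] at hb
    refine ⟨b + x, ?_, by simp⟩
    rw [Finset.mem_filter]
    exact ⟨hb.2, by simpa using hb.1⟩

theorem cr_le (A : Finset G) (x : G) : cr A x ≤ A.card := by
  rw [cr_eq]
  exact_mod_cast Finset.card_filter_le _ _

theorem nsq_cr_lower' {A : Finset G} (hA : A.Nonempty) {K : ℝ}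
    (hK : ((A + -A).card : ℝ) ≤ K * A.card) : (A.card : ℝ) ^ 3 ≤ K * nsq (cr A) := by
  have hpos : (0 : ℝ) < A.card := by exact_mod_cast hA.card_pos
  set A4 := ((A ×ˢ A) ×ˢ (A ×ˢ A)).filter fun p => p.1.1 + -p.1.2 = p.2.1 + -p.2.2 with hA4
  set B4 := ((A ×ˢ A) ×ˢ (A ×ˢ A)).filter fun p => -p.1.1 + p.1.2 = -p.2.1 + p.2.2 with hB4
  have h1 : (A ×ˢ A).card ^ 2 ≤ (A + -A).card * A4.card := by
    refine card_sq_le (A ×ˢ A) (fun p => p.1 + -p.2) _ (Finset.card_le_card ?_)
    intro y hy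
    obtain ⟨p, hp, rfl⟩ := Finset.mem_image.1 hy
    rw [Finset.mem_product] at hp
    exact Finset.add_mem_add hp.1 (Finset.neg_mem_neg hp.2)
  have h2 : A4.card ≤ B4.card := by
    refine Finset.card_le_card_of_injOn (fun p => ((p.2.1, p.1.1), (p.2.2, p.1.2))) ?_ ?_
    · intro p hp
      have hp := Finset.mem_coe.1 hp
      rw [hA4, Finset.mem_filter, Finset.mem_product, Finset.mem_product, Finset.mem_product] at hp
      obtain ⟨⟨⟨a1, a2⟩, a3, a4⟩, a5⟩ := hp
      refine Finset.mem_coe.2 (Finset.mem_filter.2 ⟨?_, ?_⟩)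
      · exact Finset.mem_product.2 ⟨Finset.mem_product.2 ⟨a3, a1⟩, Finset.mem_product.2 ⟨a4, a2⟩⟩
      · show -p.2.1 + p.1.1 = -p.2.2 + p.1.2
        have : p.1.1 = p.2.1 + -p.2.2 + p.1.2 := by rw [← a5]; simp
        rw [this]
        simp [add_assoc]
    · intro p _ p' _ h
      simp only [Prod.mk.injEq] at h
      obtain ⟨⟨e1, e2⟩, e3, e4⟩ := h
      exact Prod.ext (Prod.ext e2 e4) (Prod.ext e1 e3)
  have h3 : (B4.card : ℝ) ≤ nsq (cr A) := by
    rw [hB4, card_pairs (A ×ˢ A) (fun p => -p.1 + p.2), nsq_sum fun x hx => cr_ne_mem hx]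
    push_cast
    have e1 : ∀ x ∈ (A ×ˢ A).image (fun p => -p.1 + p.2),
        ((((A ×ˢ A).filter fun p => -p.1 + p.2 = x).card : ℝ)) ^ 2 = cr A x ^ 2 := by
      intro x _
      congr 1
      rw [cr_eq]
      congr 1
      refine Finset.card_bij (fun p _ => p.1) ?_ ?_ ?_
      · intro p hp
        rw [Finset.mem_filter, Finset.mem_product] at hp
        unfold Rp
        rw [Finset.mem_filter, ← hp.2]
        exact ⟨hp.1.1, by simpa using hp.1.2⟩
      · intro p hp p' hp' h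
        have h1 := (Finset.mem_filter.1 hp).2
        have h2 := (Finset.mem_filter.1 hp').2
        refine Prod.ext h ?_
        rw [← h2] at h1
        have h : p.1 = p'.1 := h
        rw [h] at h1
        exact add_left_cancel h1
      · intro a ha
        unfold Rp at ha
        rw [Finset.mem_filter] at ha
        exact ⟨(a, a + x), Finset.mem_filter.2 ⟨Finset.mem_product.2 ha, by simp⟩, rfl⟩
    rw [Finset.sum_congr rfl e1]
    refine Finset.sum_le_sum_of_subset_of_nonneg ?_ fun x _ _ => sq_nonneg _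
    intro x hx
    obtain ⟨p, hp, rfl⟩ := Finset.mem_image.1 hx
    rw [Finset.mem_product] at hp
    exact Finset.add_mem_add (Finset.neg_mem_neg hp.1) hp.2
  have h4 : ((A.card : ℝ) ^ 2) ^ 2 ≤ (K * A.card) * nsq (cr A) := by
    have e1 : (((A ×ˢ A).card : ℝ)) ^ 2 ≤ (A + -A).card * B4.card := by
      exact_mod_cast h1.trans (Nat.mul_le_mul_left _ h2)
    rw [Finset.card_product] at e1
    push_cast at e1
    calc ((A.card : ℝ) ^ 2) ^ 2 = ((A.card : ℝ) * (A.card : ℝ)) ^ 2 := by ring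
      _ ≤ ((A + -A).card : ℝ) * (B4.card : ℝ) := e1
      _ ≤ (K * A.card) * nsq (cr A) :=
          mul_le_mul hK h3 (Nat.cast_nonneg _) ((Nat.cast_nonneg _).trans hK)
  have h5 : (A.card : ℝ) * (A.card : ℝ) ^ 3 ≤ A.card * (K * nsq (cr A)) := by
    calc (A.card : ℝ) * (A.card : ℝ) ^ 3 = ((A.card : ℝ) ^ 2) ^ 2 := by ring
      _ ≤ (K * A.card) * nsq (cr A) := h4
      _ = _ := by ring
  exact le_of_mul_le_mul_left h5 hpos

/-- the popular elements -/
noncomputable def Pop (K : ℝ) (A : Finset G) : Finset G :=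
  (-A + A).filter fun x => (A.card : ℝ) ≤ 2 * K * cr A x

theorem Pop_neg (K : ℝ) (A : Finset G) : -Pop K A = Pop K A := by
  ext x
  rw [Finset.mem_neg']
  unfold Pop
  rw [Finset.mem_filter, Finset.mem_filter, cr_neg, ← Finset.mem_neg', neg_add_rev, neg_neg]

theorem card_Pop {A : Finset G} (hA : A.Nonempty) {K : ℝ} (hK0 : 0 < K)
    (hK : ((A + -A).card : ℝ) ≤ K * A.card) : (A.card : ℝ) ≤ 2 * K * (Pop K A).card := by
  have hpos : (0 : ℝ) < A.card := by exact_mod_cast hA.card_pos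
  have h1 := nsq_cr_lower' hA hK
  have h2 : nsq (cr A) = ∑ x ∈ Pop K A, cr A x ^ 2 +
      ∑ x ∈ (-A + A).filter (fun x => ¬ (A.card : ℝ) ≤ 2 * K * cr A x), cr A x ^ 2 := by
    rw [nsq_sum (U := -A + A) fun x hx => cr_ne_mem hx]
    unfold Pop
    rw [Finset.sum_filter_add_sum_filter_not]
  have h3 : ∑ x ∈ Pop K A, cr A x ^ 2 ≤ (Pop K A).card * (A.card : ℝ) ^ 2 := by
    refine (Finset.sum_le_card_nsmul _ _ ((A.card : ℝ) ^ 2) fun x _ => ?_).trans (by
      rw [nsmul_eq_mul])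
    exact pow_le_pow_left₀ (cr_nonneg A x) (cr_le A x) 2
  have h4 : 2 * K * ∑ x ∈ (-A + A).filter (fun x => ¬ (A.card : ℝ) ≤ 2 * K * cr A x), cr A x ^ 2 ≤
      (A.card : ℝ) ^ 3 := by
    rw [Finset.mul_sum]
    calc ∑ x ∈ (-A + A).filter (fun x => ¬ (A.card : ℝ) ≤ 2 * K * cr A x), 2 * K * cr A x ^ 2
        ≤ ∑ x ∈ (-A + A).filter (fun x => ¬ (A.card : ℝ) ≤ 2 * K * cr A x),
            (A.card : ℝ) * cr A x := by
          refine Finset.sum_le_sum fun x hx => ?_
          have h5 := (not_le.1 (Finset.mem_filter.1 hx).2).le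
          calc 2 * K * cr A x ^ 2 = (2 * K * cr A x) * cr A x := by ring
            _ ≤ A.card * cr A x := mul_le_mul_of_nonneg_right h5 (cr_nonneg A x)
      _ ≤ ∑ x ∈ -A + A, (A.card : ℝ) * cr A x :=
          Finset.sum_le_sum_of_subset_of_nonneg (Finset.filter_subset _ _)
            fun x _ _ => mul_nonneg hpos.le (cr_nonneg A x)
      _ = (A.card : ℝ) ^ 3 := by rw [← Finset.mul_sum, sum_cr]; ring
  have h5 : 2 * (A.card : ℝ) ^ 3 ≤ 2 * K * ((Pop K A).card * (A.card : ℝ) ^ 2) + (A.card : ℝ) ^ 3 := by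
    have h6 : 2 * (A.card : ℝ) ^ 3 ≤ 2 * K * nsq (cr A) := by linarith
    rw [h2, mul_add] at h6
    have h7 : 2 * K * ∑ x ∈ Pop K A, cr A x ^ 2 ≤ 2 * K * ((Pop K A).card * (A.card : ℝ) ^ 2) :=
      mul_le_mul_of_nonneg_left h3 (by positivity)
    linarith
  have h6 : (A.card : ℝ) ^ 2 * A.card ≤ (A.card : ℝ) ^ 2 * (2 * K * (Pop K A).card) := by
    nlinarith [h5]
  exact le_of_mul_le_mul_left h6 (by positivity)

/-- adding the popular set -/
theorem step {A : Finset G} (hA : A.Nonempty) {K : ℝ} (hK0 : 0 < K)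
    (hK : ((A + -A).card : ℝ) ≤ K * A.card) (T : Finset G) :
    ((T + Pop K A + -A).card : ℝ) ≤ 2 * K ^ 2 * (T + -A).card := by
  classical
  have hpos : (0 : ℝ) < A.card := by exact_mod_cast hA.card_pos
  have hrep : ∀ x : G, ∃ p : G × G × G, x ∈ T + Pop K A + -A →
      p.1 ∈ T ∧ p.2.1 ∈ Pop K A ∧ p.2.2 ∈ A ∧ p.1 + p.2.1 + -p.2.2 = x := by
    intro x
    by_cases hx : x ∈ T + Pop K A + -A
    · obtain ⟨y, hy, z, hz, rfl⟩ := Finset.mem_add.1 hx
      obtain ⟨t, ht, s, hs, rfl⟩ := Finset.mem_add.1 hy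
      rw [Finset.mem_neg] at hz
      obtain ⟨a, ha, rfl⟩ := hz
      exact ⟨(t, s, a), fun _ => ⟨ht, hs, ha, rfl⟩⟩
    · exact ⟨0, fun h => absurd h hx⟩
  choose p hp using hrep
  set Ω : Finset (Σ _ : G, G) := (T + Pop K A + -A).sigma fun x => Rp A (p x).2.1 with hΩ
  have h1 : Ω.card ≤ ((T + -A) ×ˢ (A + -A)).card := by
    refine Finset.card_le_card_of_injOn
      (fun w => ((p w.1).1 + -w.2, w.2 + (p w.1).2.1 + -(p w.1).2.2)) ?_ ?_
    · rintro ⟨x, a⟩ hw
      have hw := Finset.mem_coe.1 hw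
      rw [hΩ, Finset.mem_sigma] at hw
      obtain ⟨h1, h2⟩ := hw
      obtain ⟨q1, q2, q3, q4⟩ := hp x h1
      unfold Rp at h2
      rw [Finset.mem_filter] at h2
      refine Finset.mem_coe.2 (Finset.mem_product.2 ⟨?_, ?_⟩)
      · exact Finset.add_mem_add q1 (Finset.neg_mem_neg h2.1)
      · exact Finset.add_mem_add h2.2 (Finset.neg_mem_neg q3)
    · rintro ⟨x, a⟩ hw ⟨x', a'⟩ hw' h
      have hw := (Finset.mem_sigma.1 (Finset.mem_coe.1 hw)).1
      have hw' := (Finset.mem_sigma.1 (Finset.mem_coe.1 hw')).1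
      obtain ⟨e1, e2⟩ := Prod.ext_iff.1 h
      have e1 : (p x).1 + -a = (p x').1 + -a' := e1
      have e2 : a + (p x).2.1 + -(p x).2.2 = a' + (p x').2.1 + -(p x').2.2 := e2
      have hx : x = x' := by
        rw [← (hp x hw).2.2.2, ← (hp x' hw').2.2.2]
        calc (p x).1 + (p x).2.1 + -(p x).2.2
            = ((p x).1 + -a) + (a + (p x).2.1 + -(p x).2.2) := by simp [add_assoc]
          _ = ((p x').1 + -a') + (a' + (p x').2.1 + -(p x').2.2) := by rw [e1, e2]
          _ = _ := by simp [add_assoc]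
      subst hx
      have : a = a' := neg_injective (add_left_cancel e1)
      rw [this]
  have h2 : ((T + Pop K A + -A).card : ℝ) * A.card ≤ 2 * K * Ω.card := by
    rw [hΩ, Finset.card_sigma, Nat.cast_sum, Finset.mul_sum, ← nsmul_eq_mul]
    refine Finset.card_nsmul_le_sum _ _ _ fun x hx => ?_
    have := (hp x hx).2.1
    unfold Pop at this
    rw [Finset.mem_filter, cr_eq] at this
    exact this.2
  have h3 : (Ω.card : ℝ) ≤ (T + -A).card * (K * A.card) := by
    have : (Ω.card : ℝ) ≤ (T + -A).card * (A + -A).card := by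
      rw [Finset.card_product] at h1
      exact_mod_cast h1
    refine this.trans ?_
    exact mul_le_mul_of_nonneg_left hK (Nat.cast_nonneg _)
  have h4 : ((T + Pop K A + -A).card : ℝ) * A.card ≤ (2 * K ^ 2 * (T + -A).card) * A.card := by
    calc _ ≤ 2 * K * Ω.card := h2
      _ ≤ 2 * K * ((T + -A).card * (K * A.card)) := by gcongr
      _ = _ := by ring
  exact le_of_mul_le_mul_right h4 hpos

theorem card_nsmul_Pop {A : Finset G} (hA : A.Nonempty) {K : ℝ} (hK0 : 0 < K)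
    (hK : ((A + -A).card : ℝ) ≤ K * A.card) (n : ℕ) :
    ((n • Pop K A + -A).card : ℝ) ≤ (2 * K ^ 2) ^ n * A.card := by
  induction n with
  | zero => simp
  | succ n ih =>
    rw [succ_nsmul]
    refine (step hA hK0 hK (n • Pop K A)).trans ?_
    calc 2 * K ^ 2 * ((n • Pop K A + -A).card : ℝ) ≤ 2 * K ^ 2 * ((2 * K ^ 2) ^ n * A.card) := by
          gcongr
      _ = _ := by ring

/-- a large part of a set of small doubling near a symmetric set all of whose multiples are small -/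
theorem exists_part' {A : Finset G} (hA : A.Nonempty) {K : ℝ} (hK0 : 0 < K)
    (hK : ((A + -A).card : ℝ) ≤ K * A.card) :
    ∃ X ⊆ A, X.Nonempty ∧ (A.card : ℝ) ≤ 4 * K ^ 4 * X.card ∧
      ((X + ((-X + X) + (-X + X))).card : ℝ) ≤ (2 * K ^ 2) ^ 12 * (4 * K ^ 4) * X.card ∧
      (((-X + X) + ((-X + X) + (-X + X))).card : ℝ) ≤ (2 * K ^ 2) ^ 12 * (4 * K ^ 4) * X.card := by
  classical
  have hpos : (0 : ℝ) < A.card := by exact_mod_cast hA.card_pos
  set S : Finset G := Pop K A with hS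
  have hScard := card_Pop hA hK0 hK
  rw [← hS] at hScard
  have hSpos : (0 : ℝ) < S.card := by
    by_contra h
    have : 2 * K * (S.card : ℝ) ≤ 0 :=
      mul_nonpos_of_nonneg_of_nonpos (by positivity) (not_lt.1 h)
    linarith
  have hSne : S.Nonempty := Finset.card_pos.1 (by exact_mod_cast hSpos)
  have hSneg : -S = S := Pop_neg K A
  have hK1 : 1 ≤ K := by
    have h1 : (A.card : ℝ) ≤ (A + -A).card := by
      have := Finset.card_le_card_add_right (s := A) (t := -A) (by simpa using hA)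
      exact_mod_cast this
    have h2 : 1 * (A.card : ℝ) ≤ K * A.card := by linarith
    exact le_of_mul_le_mul_right h2 hpos
  have h2K : (1 : ℝ) ≤ 2 * K ^ 2 := by nlinarith
  have hAS : ((A + S).card : ℝ) ≤ 4 * K ^ 4 * S.card := by
    have h1 : ((A + S).card : ℝ) ≤ (A + S + -A).card := by
      have := Finset.card_le_card_add_right (s := A + S) (t := -A) (by simpa using hA)
      exact_mod_cast this
    have h2 := step hA hK0 hK A
    rw [← hS] at h2
    calc ((A + S).card : ℝ) ≤ 2 * K ^ 2 * (A + -A).card := h1.trans h2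
      _ ≤ 2 * K ^ 2 * (K * A.card) := by gcongr
      _ ≤ 2 * K ^ 2 * (K * (2 * K * S.card)) := by gcongr
      _ = _ := by ring
  obtain ⟨F, hFA, hFc, hcov⟩ := Finset.ruzsa_covering_add hSne hAS
  have hFne : F.Nonempty := by
    rw [Finset.nonempty_iff_ne_empty]
    intro h
    rw [h, Finset.empty_add] at hcov
    exact hA.ne_empty (Finset.subset_empty.1 hcov)
  have hFpos : (0 : ℝ) < F.card := by exact_mod_cast hFne.card_pos
  have hex : ∃ f ∈ F, (A.card : ℝ) / F.card ≤ ((A.filter fun a => -f + a ∈ S - S).card : ℝ) := by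
    by_contra hcon
    push Not at hcon
    have h1 : A ⊆ F.biUnion fun f => A.filter fun a => -f + a ∈ S - S := by
      intro a ha
      obtain ⟨f, hf, u, hu, rfl⟩ := Finset.mem_add.1 (hcov ha)
      rw [Finset.mem_biUnion]
      exact ⟨f, hf, Finset.mem_filter.2 ⟨ha, by simpa using hu⟩⟩
    have h2 : (A.card : ℝ) ≤ ∑ f ∈ F, ((A.filter fun a => -f + a ∈ S - S).card : ℝ) := by
      exact_mod_cast (Finset.card_le_card h1).trans Finset.card_biUnion_le
    have h3 : ∑ f ∈ F, ((A.filter fun a => -f + a ∈ S - S).card : ℝ) <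
        ∑ f ∈ F, (A.card : ℝ) / F.card := Finset.sum_lt_sum_of_nonempty hFne hcon
    rw [Finset.sum_const, nsmul_eq_mul, mul_div_cancel₀ _ hFpos.ne'] at h3
    linarith
  obtain ⟨f, hf, hfc⟩ := hex
  set X : Finset G := A.filter fun a => -f + a ∈ S - S with hX
  have hXc : (A.card : ℝ) ≤ 4 * K ^ 4 * X.card := by
    rw [div_le_iff₀ hFpos] at hfc
    calc (A.card : ℝ) ≤ X.card * F.card := hfc
      _ ≤ X.card * (4 * K ^ 4) := by gcongr
      _ = _ := by ring
  have hXpos : (0 : ℝ) < X.card := by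
    by_contra h
    have : 4 * K ^ 4 * (X.card : ℝ) ≤ 0 :=
      mul_nonpos_of_nonneg_of_nonpos (by positivity) (not_lt.1 h)
    linarith
  have hSS : S - S = 2 • S := by rw [sub_eq_add_neg, hSneg, two_nsmul]
  have hneg2 : -((2 : ℕ) • S) = 2 • S := by rw [two_nsmul, neg_add_rev, hSneg]
  have hmem : ∀ a ∈ X, -f + a ∈ 2 • S := fun a ha => by
    rw [← hSS]; exact (Finset.mem_filter.1 ha).2
  have hd : ∀ v ∈ -X + X, v ∈ 4 • S := by
    intro v hv
    obtain ⟨b', hb', c, hc, rfl⟩ := Finset.mem_add.1 hv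
    rw [Finset.mem_neg] at hb'
    obtain ⟨b, hb, rfl⟩ := hb'
    have h1 : -b + c = -(-f + b) + (-f + c) := by simp
    rw [h1, show (4 : ℕ) = 2 + 2 by rfl, add_nsmul]
    refine Finset.add_mem_add ?_ (hmem c hc)
    rw [← hneg2]
    exact Finset.neg_mem_neg (hmem b hb)
  have hsmall : ∀ n : ℕ, n ≤ 12 → ((n • S).card : ℝ) ≤ (2 * K ^ 2) ^ 12 * (4 * K ^ 4) * X.card := by
    intro n hn
    calc ((n • S).card : ℝ) ≤ ((n • S + -A).card : ℝ) := by
          have := Finset.card_le_card_add_right (s := n • S) (t := -A) (by simpa using hA)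
          exact_mod_cast this
      _ ≤ (2 * K ^ 2) ^ n * A.card := card_nsmul_Pop hA hK0 hK n
      _ ≤ (2 * K ^ 2) ^ 12 * A.card := by
          refine mul_le_mul_of_nonneg_right ?_ hpos.le
          exact pow_le_pow_right₀ h2K hn
      _ ≤ (2 * K ^ 2) ^ 12 * (4 * K ^ 4 * X.card) := by gcongr
      _ = _ := by ring
  refine ⟨X, Finset.filter_subset _ _, Finset.card_pos.1 (by exact_mod_cast hXpos), hXc, ?_, ?_⟩
  · have hsub : X + ((-X + X) + (-X + X)) ⊆ {f} + 10 • S := by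
      intro y hy
      obtain ⟨a, ha, v, hv, rfl⟩ := Finset.mem_add.1 hy
      obtain ⟨v1, hv1, v2, hv2, rfl⟩ := Finset.mem_add.1 hv
      have h1 : a + (v1 + v2) = f + ((-f + a) + (v1 + v2)) := by simp [add_assoc]
      rw [h1]
      refine Finset.add_mem_add (Finset.mem_singleton_self f) ?_
      rw [show (10 : ℕ) = 2 + (4 + 4) by rfl, add_nsmul, add_nsmul]
      exact Finset.add_mem_add (hmem a ha) (Finset.add_mem_add (hd v1 hv1) (hd v2 hv2))
    calc ((X + ((-X + X) + (-X + X))).card : ℝ) ≤ (({f} + 10 • S : Finset G).card : ℝ) := by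
          exact_mod_cast Finset.card_le_card hsub
      _ = ((10 • S).card : ℝ) := by rw [Finset.card_singleton_add]
      _ ≤ _ := hsmall 10 (by norm_num)
  · have hsub : (-X + X) + ((-X + X) + (-X + X)) ⊆ 12 • S := by
      intro y hy
      obtain ⟨a, ha, v, hv, rfl⟩ := Finset.mem_add.1 hy
      obtain ⟨v1, hv1, v2, hv2, rfl⟩ := Finset.mem_add.1 hv
      rw [show (12 : ℕ) = 4 + (4 + 4) by rfl, add_nsmul, add_nsmul]
      exact Finset.add_mem_add (hd a ha) (Finset.add_mem_add (hd v1 hv1) (hd v2 hv2))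
    exact (Nat.cast_le.2 (Finset.card_le_card hsub)).trans (hsmall 12 le_rfl)

/-- **Balog-Szemeredi-Gowers for a dense set of pairs.** -/
theorem dense_pairs (ε : ℝ) (hε : 0 < ε) (n : ℝ) (hn : 0 < n) (A B C : Finset G)
    (hA : (A.card : ℝ) ≤ n) (hB : (B.card : ℝ) ≤ n) (hC : (C.card : ℝ) ≤ n) (S : Finset (G × G))
    (hS : ∀ z ∈ S, z.1 ∈ A ∧ z.2 ∈ B ∧ z.1 + z.2 ∈ C) (hSc : ε * n ^ 2 ≤ S.card) :
    ∃ X ⊆ A, ε ^ 2 / 16 * n ≤ X.card ∧ ((X + -X).card : ℝ) ≤ (2 ^ 20 / ε ^ 10) * X.card ∧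
      ∀ x ∈ X, ε / 2 * n ≤ ((B.filter fun y => (x, y) ∈ S).card : ℝ) := by
  classical
  set deg : G → ℝ := fun x => ((B.filter fun y => (x, y) ∈ S).card : ℝ) with hdeg
  set X₀ : Finset G := A.filter fun x => ε / 2 * n ≤ deg x with hX₀
  have hsum : ∑ x ∈ A, deg x = S.card := by
    have h1 : S.card = ∑ x ∈ A, (B.filter fun y => (x, y) ∈ S).card := by
      rw [Finset.card_eq_sum_card_fiberwise (f := Prod.fst) (t := A)
        (fun z hz => Finset.mem_coe.2 (hS z (Finset.mem_coe.1 hz)).1)]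
      refine Finset.sum_congr rfl fun x _ => ?_
      refine Finset.card_bij (fun z _ => z.2) ?_ ?_ ?_
      · intro z hz
        rw [Finset.mem_filter] at hz
        rw [Finset.mem_filter]
        refine ⟨(hS z hz.1).2.1, ?_⟩
        have : (x, z.2) = z := Prod.ext hz.2.symm rfl
        rw [this]
        exact hz.1
      · intro z hz z' hz' h
        rw [Finset.mem_filter] at hz hz'
        exact Prod.ext (hz.2.trans hz'.2.symm) h
      · intro y hy
        rw [Finset.mem_filter] at hy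
        exact ⟨(x, y), Finset.mem_filter.2 ⟨hy.2, rfl⟩, rfl⟩
    rw [h1]
    push_cast
    rfl
  have hdegB : ∀ x, deg x ≤ B.card := fun x => by
    simp only [hdeg]
    exact_mod_cast Finset.card_filter_le _ _
  have hX₀c : ε / 2 * n ≤ X₀.card := by
    have h1 : ∑ x ∈ A, deg x ≤ X₀.card * n + n * (ε / 2 * n) := by
      rw [← Finset.sum_filter_add_sum_filter_not A (fun x => ε / 2 * n ≤ deg x)]
      refine add_le_add ?_ ?_
      · refine (Finset.sum_le_card_nsmul _ _ n fun x _ => (hdegB x).trans hB).trans ?_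
        rw [nsmul_eq_mul]
      · refine (Finset.sum_le_card_nsmul _ _ (ε / 2 * n) fun x hx =>
          (not_le.1 (Finset.mem_filter.1 hx).2).le).trans ?_
        rw [nsmul_eq_mul]
        refine mul_le_mul_of_nonneg_right ?_ (by positivity)
        exact (Nat.cast_le.2 (Finset.card_filter_le _ _)).trans hA
    rw [hsum] at h1
    have h2 : (ε / 2 * n) * n ≤ X₀.card * n := by nlinarith
    exact le_of_mul_le_mul_right h2 hn
  have hBc : ε * n ≤ B.card := by
    have h1 : ∑ x ∈ A, deg x ≤ n * B.card := by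
      refine (Finset.sum_le_card_nsmul _ _ (B.card : ℝ) fun x _ => hdegB x).trans ?_
      rw [nsmul_eq_mul]
      gcongr
    rw [hsum] at h1
    have h2 : (ε * n) * n ≤ B.card * n := by nlinarith
    exact le_of_mul_le_mul_right h2 hn
  have hX₀pos : (0 : ℝ) < X₀.card := lt_of_lt_of_le (by positivity) hX₀c
  have hBpos : (0 : ℝ) < B.card := lt_of_lt_of_le (by positivity) hBc
  have hX₀ne : X₀.Nonempty := Finset.card_pos.1 (by exact_mod_cast hX₀pos)
  have hBne : B.Nonempty := Finset.card_pos.1 (by exact_mod_cast hBpos)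
  set L : ℝ := 2 / ε with hL
  have hLpos : 0 < L := by positivity
  have hswap : ∑ y ∈ B, ((X₀.filter fun x => (x, y) ∈ S).card : ℝ) = ∑ x ∈ X₀, deg x := by
    simp only [hdeg, Finset.card_filter]
    push_cast
    rw [Finset.sum_comm]
  obtain ⟨X1, hX1, X', hX', hc1, hc2, hgood⟩ := Pool.Agent.H217R3.AK.graph X₀ B
    (fun x y => (x, y) ∈ S) L hLpos hX₀ne hBne (by
      have h1 : (X₀.card : ℝ) * B.card ≤ L * ∑ x ∈ X₀, deg x := by
        have h2 : (X₀.card : ℝ) * (ε / 2 * n) ≤ ∑ x ∈ X₀, deg x := by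
          rw [← nsmul_eq_mul]
          exact Finset.card_nsmul_le_sum _ _ _ fun x hx => (Finset.mem_filter.1 hx).2
        calc (X₀.card : ℝ) * B.card ≤ X₀.card * n := by gcongr
          _ = L * (X₀.card * (ε / 2 * n)) := by rw [hL]; field_simp
          _ ≤ L * ∑ x ∈ X₀, deg x := by gcongr
      rw [← hswap] at h1
      convert h1)
  have hX1c : ε ^ 2 / 8 * n ≤ X1.card := by
    have h1 : ε / 2 * n ≤ 2 * L * X1.card := hX₀c.trans hc1
    rw [hL] at h1
    have h2 : ε / 4 * (ε / 2 * n) ≤ ε / 4 * (2 * (2 / ε) * X1.card) :=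
      mul_le_mul_of_nonneg_left h1 (by positivity)
    have h3 : ε / 4 * (2 * (2 / ε) * (X1.card : ℝ)) = X1.card := by field_simp; ring
    rw [h3] at h2
    calc ε ^ 2 / 8 * n = ε / 4 * (ε / 2 * n) := by ring
      _ ≤ X1.card := h2
  have hX1pos : (0 : ℝ) < X1.card := lt_of_lt_of_le (by positivity) hX1c
  have hX'c : ε ^ 2 / 16 * n ≤ X'.card := by linarith
  have hX'pos : (0 : ℝ) < X'.card := lt_of_lt_of_le (by positivity) hX'c
  refine ⟨X', (hX'.trans hX1).trans (Finset.filter_subset _ _), hX'c, ?_, fun x hx =>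
    (Finset.mem_filter.1 (hX1 (hX' hx))).2⟩
  -- counting paths
  have hrep : ∀ d : G, ∃ p : G × G, d ∈ X' + -X' → p.1 ∈ X' ∧ p.2 ∈ X' ∧ p.1 + -p.2 = d := by
    intro d
    by_cases hd : d ∈ X' + -X'
    · obtain ⟨u, hu, v', hv', huv⟩ := Finset.mem_add.1 hd
      rw [Finset.mem_neg] at hv'
      obtain ⟨v, hv, rfl⟩ := hv'
      exact ⟨(u, v), fun _ => ⟨hu, hv, huv⟩⟩
    · exact ⟨0, fun h => absurd h hd⟩
  choose p hp using hrep
  set Nb : G → G → Finset G := fun x z => B.filter (fun y => (x, y) ∈ S ∧ (z, y) ∈ S) with hNb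
  set Z : G → G → Finset G := fun x x' => X1.filter (fun z =>
        ((B.card : ℝ) ≤ 16 * L ^ 2 * (B.filter (fun y => (x, y) ∈ S ∧ (z, y) ∈ S)).card) ∧
        ((B.card : ℝ) ≤ 16 * L ^ 2 * (B.filter (fun y => (x', y) ∈ S ∧ (z, y) ∈ S)).card))
    with hZ
  set Ω : Finset (Σ _ : G, Σ _ : G, G × G) := (X' + -X').sigma fun d =>
    (Z (p d).1 (p d).2).sigma fun z => (Nb (p d).1 z) ×ˢ (Nb (p d).2 z) with hΩ
  have hΩle : Ω.card ≤ C.card ^ 4 := by
    have h4 : C.card ^ 4 = (C ×ˢ C ×ˢ C ×ˢ C).card := by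
      simp only [Finset.card_product]; ring
    rw [h4]
    apply Finset.card_le_card_of_injOn (fun w : (Σ _ : G, Σ _ : G, G × G) =>
      ((p w.1).1 + w.2.2.1, w.2.1 + w.2.2.1, w.2.1 + w.2.2.2, (p w.1).2 + w.2.2.2))
    · rintro ⟨d, z, y1, y2⟩ hw
      simp only [hΩ, mem_coe, Finset.mem_sigma, mem_product, hNb, mem_filter] at hw ⊢
      exact ⟨(hS _ hw.2.2.1.2.1).2.2, (hS _ hw.2.2.1.2.2).2.2, (hS _ hw.2.2.2.2.2).2.2,
        (hS _ hw.2.2.2.2.1).2.2⟩
    · rintro ⟨d, z, y1, y2⟩ hw ⟨d', z', y1', y2'⟩ hw' h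
      simp only [hΩ, mem_coe, Finset.mem_sigma] at hw hw'
      simp only [Prod.mk.injEq] at h
      obtain ⟨h1, h2, h3, h4⟩ := h
      have hd : d = d' := by
        rw [← (hp d hw.1).2.2, ← (hp d' hw'.1).2.2]
        have e1 : (p d).1 + -(p d).2 = ((p d).1 + y1) - (z + y1) + (z + y2) - ((p d).2 + y2) := by
          simp [sub_eq_add_neg, add_assoc]
        have e2 : (p d').1 + -(p d').2 =
            ((p d').1 + y1') - (z' + y1') + (z' + y2') - ((p d').2 + y2') := by
          simp [sub_eq_add_neg, add_assoc]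
        rw [e1, e2, h1, h2, h3, h4]
      subst hd
      have hy1 : y1 = y1' := add_left_cancel h1
      have hy2 : y2 = y2' := add_left_cancel h4
      subst hy1
      subst hy2
      have hz : z = z' := add_right_cancel h2
      subst hz
      rfl
  set c : ℝ := ε ^ 3 / 64 * n with hc
  have hc0 : 0 ≤ c := by positivity
  have hcc : ∀ t : ℝ, (B.card : ℝ) ≤ 16 * L ^ 2 * t → c ≤ t := by
    intro t ht
    have h1 : ε * n ≤ 16 * L ^ 2 * t := hBc.trans ht
    rw [hL] at h1
    have h2 : ε ^ 2 / 64 * (ε * n) ≤ ε ^ 2 / 64 * (16 * (2 / ε) ^ 2 * t) :=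
      mul_le_mul_of_nonneg_left h1 (by positivity)
    have h3 : ε ^ 2 / 64 * (16 * (2 / ε) ^ 2 * t) = t := by field_simp; ring
    rw [h3] at h2
    calc c = ε ^ 2 / 64 * (ε * n) := by rw [hc]; ring
      _ ≤ t := h2
  have hΩge : ((X' + -X').card : ℝ) * ((X1.card : ℝ) / 2 * c ^ 2) ≤ Ω.card := by
    rw [hΩ, Finset.card_sigma, Nat.cast_sum, ← nsmul_eq_mul]
    apply Finset.card_nsmul_le_sum
    intro d hd
    obtain ⟨hp1, hp2, _⟩ := hp d hd
    rw [Finset.card_sigma, Nat.cast_sum]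
    have h1 := hgood _ hp1 _ hp2
    have h1' : (X1.card : ℝ) ≤ 2 * (Z (p d).1 (p d).2).card := by
      simp only [hZ]
      convert h1
    have h2 : (X1.card : ℝ) / 2 ≤ (Z (p d).1 (p d).2).card := by linarith
    calc (X1.card : ℝ) / 2 * c ^ 2 ≤ (Z (p d).1 (p d).2).card * c ^ 2 :=
          mul_le_mul_of_nonneg_right h2 (sq_nonneg _)
      _ ≤ _ := by
          rw [← nsmul_eq_mul]
          apply Finset.card_nsmul_le_sum
          intro z hz
          simp only [hZ, mem_filter] at hz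
          have h3 : c ≤ ((Nb (p d).1 z).card : ℝ) := hcc _ hz.2.1
          have h4 : c ≤ ((Nb (p d).2 z).card : ℝ) := hcc _ hz.2.2
          rw [Finset.card_product, Nat.cast_mul, sq]
          exact mul_le_mul h3 h4 hc0 (Nat.cast_nonneg _)
  have hfin : ((X' + -X').card : ℝ) * ((X1.card : ℝ) / 2 * c ^ 2) ≤ n ^ 4 := by
    refine hΩge.trans ?_
    have h1 : (Ω.card : ℝ) ≤ (C.card : ℝ) ^ 4 := by exact_mod_cast hΩle
    exact h1.trans (pow_le_pow_left₀ (Nat.cast_nonneg _) hC 4)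
  have h5 : ((X' + -X').card : ℝ) * ((ε ^ 2 / 8 * n) / 2 * c ^ 2) ≤ n ^ 4 := by
    refine le_trans ?_ hfin
    gcongr
  have h6 : (ε ^ 2 / 8 * n) / 2 * c ^ 2 = ε ^ 8 / 2 ^ 16 * n ^ 3 := by
    rw [hc]; ring
  rw [h6] at h5
  have h7 : ((X' + -X').card : ℝ) ≤ 2 ^ 16 / ε ^ 8 * n := by
    have h8 : ((X' + -X').card : ℝ) * (ε ^ 8 / 2 ^ 16 * n ^ 3) ≤
        (2 ^ 16 / ε ^ 8 * n) * (ε ^ 8 / 2 ^ 16 * n ^ 3) := by
      refine h5.trans (le_of_eq ?_)
      field_simp
    exact le_of_mul_le_mul_right h8 (by positivity)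
  refine h7.trans ?_
  calc 2 ^ 16 / ε ^ 8 * n = (2 ^ 20 / ε ^ 10) * (ε ^ 2 / 16 * n) := by field_simp; norm_num
    _ ≤ (2 ^ 20 / ε ^ 10) * X'.card := by gcongr

end

/-- the density Hales-Jewett theorem, as a lower bound for the number of base points -/
theorem exists_lines {β : Type} [Fintype β] [Nonempty β] (N : ℕ) (δ : ℝ) (hδ : 0 < δ)
    (hN : ∀ A : Set (Fin N → β), Pool.Agent.Helper868.DHJ.LineFree A → Pool.Agent.Helper868.DHJ.dens A < δ)
    {G : Type} [AddGroup G] [DecidableEq G] (A W : Finset G)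
    (hAW : 2 * δ * W.card ≤ A.card) (φ : (Fin N → β) → G)
    (hφ : ∀ x, ∀ a ∈ A, a + -(φ x) ∈ W) :
    ∃ S : Finset G, (A.card : ℝ) ≤ 2 * S.card ∧
      ∀ g ∈ S, ∃ u : Fin N → Option β, (∃ i, u i = none) ∧ ∀ b, g + φ (Pool.Agent.Helper868.DHJ.pt u b) ∈ A := by
  classical
  set S : Finset G := W.filter fun g => δ ≤ Pool.Agent.Helper868.DHJ.dens {x | g + φ x ∈ A} with hS
  refine ⟨S, ?_, ?_⟩
  · have h1 : ∑ g ∈ W, Pool.Agent.Helper868.DHJ.dens {x | g + φ x ∈ A} = A.card := by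
      have e1 : ∑ g ∈ W, Pool.Agent.Helper868.DHJ.dens {x | g + φ x ∈ A} =
          Pool.Agent.Helper868.DHJ.av (fun x => ∑ g ∈ W, Pool.Agent.Helper868.DHJ.ind {x | g + φ x ∈ A} x) := by
        rw [Pool.Agent.Helper868.DHJ.av_sum]
        rfl
      rw [e1]
      have e2 : (fun x => ∑ g ∈ W, Pool.Agent.Helper868.DHJ.ind {x | g + φ x ∈ A} x) = fun _ => (A.card : ℝ) := by
        funext x
        have e3 : ∀ g ∈ W, Pool.Agent.Helper868.DHJ.ind {x | g + φ x ∈ A} x = if g + φ x ∈ A then (1 : ℝ) else 0 := by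
          intro g _
          by_cases h : g + φ x ∈ A
          · rw [if_pos h]; exact Pool.Agent.Helper868.DHJ.ind_mem h
          · rw [if_neg h]; exact Pool.Agent.Helper868.DHJ.ind_not_mem h
        rw [Finset.sum_congr rfl e3, Finset.sum_boole]
        congr 1
        refine Finset.card_bij (fun g _ => g + φ x) ?_ ?_ ?_
        · intro g hg; exact (Finset.mem_filter.1 hg).2
        · intro g _ g' _ h; exact add_right_cancel h
        · intro a ha
          refine ⟨a + -(φ x), ?_, by simp⟩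
          rw [Finset.mem_filter]
          exact ⟨hφ x a ha, by simpa using ha⟩
      rw [e2, Pool.Agent.Helper868.DHJ.av_const]
    have h2 : ∑ g ∈ W, Pool.Agent.Helper868.DHJ.dens {x | g + φ x ∈ A} ≤ S.card + W.card * δ := by
      rw [← Finset.sum_filter_add_sum_filter_not W (fun g => δ ≤ Pool.Agent.Helper868.DHJ.dens {x | g + φ x ∈ A})]
      refine add_le_add ?_ ?_
      · refine (Finset.sum_le_card_nsmul _ _ 1 fun g _ => Pool.Agent.Helper868.DHJ.dens_le_one _).trans ?_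
        rw [nsmul_eq_mul, mul_one]
      · refine (Finset.sum_le_card_nsmul _ _ δ fun g hg =>
          (not_le.1 (Finset.mem_filter.1 hg).2).le).trans ?_
        rw [nsmul_eq_mul]
        refine mul_le_mul_of_nonneg_right ?_ hδ.le
        exact_mod_cast Finset.card_filter_le _ _
    rw [h1] at h2
    nlinarith
  · intro g hg
    have h1 := (Finset.mem_filter.1 hg).2
    have h2 : ¬ Pool.Agent.Helper868.DHJ.LineFree {x | g + φ x ∈ A} := fun h => absurd (hN _ h) (not_lt.2 h1)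
    unfold Pool.Agent.Helper868.DHJ.LineFree at h2
    push Not at h2
    obtain ⟨u, hu, hb⟩ := h2
    exact ⟨u, hu, fun b => hb b⟩

end Run7.h50.BES.Inf
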