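import Mathlib
import Pool.Agent.Run7.h50.BES.IPart
import Pool.Agent.Run7.h50.EN.Pat

/-!
# Grids in dense sets of pairs with few products
-/

set_option autoImplicit false
set_option linter.unusedSectionVars false
set_option linter.unusedVariables false

namespace Run7.h50.BES.Inf

open Finset
open Run7.h50.EN (q_nsmul)
open scoped Pointwise
open Pool.Agent.Helper868

section
variable {G : Type} [AddGroup G] [DecidableEq G]

/-- covering the second coordinates -/
theorem cover (η n : ℝ) (hη : 0 < η) (X B' C : Finset G) (hX : X.Nonempty)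
    (hC : (C.card : ℝ) ≤ n) (S : Finset (G × G)) (hS : ∀ z ∈ S, z.1 + z.2 ∈ C)
    (hB : ∀ b ∈ B', η * X.card ≤ ((X.filter fun x => (x, b) ∈ S).card : ℝ)) :
    ∃ T : Finset G, (T.card : ℝ) * (η * X.card) ≤ n ∧ ∀ b ∈ B', ∃ t ∈ T, b + -t ∈ -X + X := by
  classical
  have hXpos : (0 : ℝ) < X.card := by exact_mod_cast hX.card_pos
  set I : G → Finset G := fun b => (X.filter fun x => (x, b) ∈ S).image fun x => x + b with hI
  have hIc : ∀ b, (I b).card = (X.filter fun x => (x, b) ∈ S).card := fun b =>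
    Finset.card_image_of_injective _ (add_left_injective b)
  set fam : Finset (Finset G) := B'.powerset.filter fun T =>
    ∀ t ∈ T, ∀ t' ∈ T, t ≠ t' → Disjoint (I t) (I t') with hfam
  have hne : fam.Nonempty := ⟨∅, by simp [hfam]⟩
  obtain ⟨T, hT, hmax⟩ := Finset.exists_max_image fam Finset.card hne
  rw [hfam, Finset.mem_filter, Finset.mem_powerset] at hT
  obtain ⟨hTB, hTd⟩ := hT
  refine ⟨T, ?_, ?_⟩
  · have h1 : (T.biUnion I).card = ∑ t ∈ T, (I t).card :=
      Finset.card_biUnion fun t ht t' ht' hne => hTd t ht t' ht' hne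
    have h2 : T.biUnion I ⊆ C := by
      intro y hy
      obtain ⟨t, _, hy⟩ := Finset.mem_biUnion.1 hy
      obtain ⟨x, hx, rfl⟩ := Finset.mem_image.1 hy
      exact hS _ (Finset.mem_filter.1 hx).2
    have h3 : (T.card : ℝ) * (η * X.card) ≤ ∑ t ∈ T, ((I t).card : ℝ) := by
      rw [← nsmul_eq_mul]
      refine Finset.card_nsmul_le_sum _ _ _ fun t ht => ?_
      rw [hIc]
      exact hB t (hTB ht)
    refine h3.trans ?_
    have h4 : ∑ t ∈ T, ((I t).card : ℝ) = ((T.biUnion I).card : ℝ) := by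
      rw [h1]; push_cast; rfl
    rw [h4]
    exact (Nat.cast_le.2 (Finset.card_le_card h2)).trans hC
  · intro b hb
    have hIne : (I b).Nonempty := by
      rw [← Finset.card_pos, hIc]
      have h1 := hB b hb
      have h2 : (0 : ℝ) < ((X.filter fun x => (x, b) ∈ S).card : ℝ) :=
        lt_of_lt_of_le (by positivity) h1
      exact_mod_cast h2
    by_cases hbT : b ∈ T
    · refine ⟨b, hbT, ?_⟩
      obtain ⟨x, hx⟩ := hX
      rw [add_neg_cancel]
      have := Finset.add_mem_add (Finset.neg_mem_neg hx) hx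
      rwa [neg_add_cancel] at this
    · by_contra hcon
      push Not at hcon
      have hdis : ∀ t ∈ T, Disjoint (I b) (I t) := by
        intro t ht
        rw [Finset.disjoint_left]
        intro y hy hy'
        obtain ⟨x, hx, rfl⟩ := Finset.mem_image.1 hy
        obtain ⟨x', hx', he⟩ := Finset.mem_image.1 hy'
        refine hcon t ht ?_
        have h1 : b + -t = -x + x' := by
          have he : x' + t = x + b := he
          have : b = -x + (x' + t) := by rw [he]; simp
          rw [this]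
          simp [add_assoc]
        rw [h1]
        exact Finset.add_mem_add (Finset.neg_mem_neg (Finset.mem_filter.1 hx).1)
          (Finset.mem_filter.1 hx').1
      have hins : insert b T ∈ fam := by
        rw [hfam, Finset.mem_filter, Finset.mem_powerset]
        refine ⟨Finset.insert_subset hb hTB, ?_⟩
        intro t ht t' ht' hne
        rw [Finset.mem_insert] at ht ht'
        rcases ht with rfl | ht <;> rcases ht' with rfl | ht'
        · exact absurd rfl hne
        · exact hdis t' ht'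
        · exact (hdis t ht).symm
        · exact hTd t ht t' ht' hne
      have := hmax _ hins
      rw [Finset.card_insert_of_notMem hbT] at this
      omega

end

set_option maxHeartbeats 1000000 in
/-- **Grids in dense sets of pairs.** -/
theorem grid (m : ℕ) (hm : 1 ≤ m) (ε : ℝ) (hε : 0 < ε) : ∃ (N : ℕ) (κ : ℝ), 0 < κ ∧
    ∀ (G : Type) [AddGroup G] [DecidableEq G] (A B C : Finset G) (S : Finset (G × G))
      (n : ℕ) (Pr : G → Prop), 0 < n → A.card ≤ n → B.card ≤ n → C.card ≤ n →
      (∀ z ∈ S, z.1 ∈ A ∧ z.2 ∈ B ∧ z.1 + z.2 ∈ C) → ε * (n : ℝ) ^ 2 ≤ S.card →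
      (∀ W : Finset G, (∀ g ∈ W, g ∈ (-A + A) + (-A + A) ∧ Pr g) → (W.card : ℝ) ≤ κ * n) →
      ∃ (a b h : G) (w : ℕ), ¬ Pr h ∧ 1 ≤ w ∧ w ≤ N ∧
        ∀ i j : Fin m, (a + (w * (i : ℕ)) • h, (w * (j : ℕ)) • h + b) ∈ S := by
  classical
  have : NeZero m := ⟨by omega⟩
  set K : ℝ := 2 ^ 20 / ε ^ 10 with hKdef
  have hK0 : 0 < K := by positivity
  set K₂ : ℝ := (2 * K ^ 2) ^ 12 * (4 * K ^ 4) with hK₂
  have hK₂0 : 0 < K₂ := by positivity
  set δ : ℝ := ε ^ 2 / (32 * K₂ ^ 2) with hδ
  have hδ0 : 0 < δ := by positivity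
  obtain ⟨N, hN⟩ := DHJ.density_hales_jewett (Fin m × Fin m) δ hδ0
  have hN' := hN (Fin N) (by rw [Fintype.card_fin])
  set M : ℝ := (N : ℝ) * m + 1 with hM
  have hM0 : 0 ≤ M := by positivity
  obtain ⟨p, hp⟩ := exists_nat_gt (4 * K₂ * M ^ 2)
  set c₁ : ℝ := ε ^ 2 / 16 / (4 * K ^ 4) / (2 * K₂ ^ p) with hc₁
  have hc₁0 : 0 < c₁ := by positivity
  refine ⟨N, c₁ / 2, by positivity, ?_⟩
  intro G _ _ A B C S n Pr hn hA hB hC hS hSc hPr
  have hnpos : (0 : ℝ) < n := by exact_mod_cast hn
  have hA' : (A.card : ℝ) ≤ n := by exact_mod_cast hA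
  have hB' : (B.card : ℝ) ≤ n := by exact_mod_cast hB
  have hC' : (C.card : ℝ) ≤ n := by exact_mod_cast hC
  obtain ⟨X', hX'A, hX'c, hX'K, hX'deg⟩ := dense_pairs ε hε n hnpos A B C hA' hB' hC' S hS hSc
  have hX'pos : (0 : ℝ) < X'.card := lt_of_lt_of_le (by positivity) hX'c
  have hX'ne : X'.Nonempty := Finset.card_pos.1 (by exact_mod_cast hX'pos)
  obtain ⟨X, hXX', hXne, hXc, hXW, hXD⟩ := exists_part' hX'ne hK0 hX'K
  have hXpos : (0 : ℝ) < X.card := by exact_mod_cast hXne.card_pos
  have hXn : ε ^ 2 / 16 / (4 * K ^ 4) * n ≤ X.card := by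
    rw [div_mul_eq_mul_div, div_le_iff₀ (by positivity)]
    calc ε ^ 2 / 16 * (n : ℝ) ≤ X'.card := hX'c
      _ ≤ 4 * K ^ 4 * X.card := hXc
      _ = _ := by ring
  -- the second coordinates
  set degB : G → ℝ := fun b => ((X.filter fun x => (x, b) ∈ S).card : ℝ) with hdegB
  set B₁ : Finset G := B.filter fun b => ε / 4 * X.card ≤ degB b with hB₁
  set S₁ : Finset (G × G) := S.filter fun z => z.1 ∈ X ∧ z.2 ∈ B₁ with hS₁
  have hS₁c : ε / 4 * n * X.card ≤ S₁.card := by
    have h1 : ε / 2 * n * X.card ≤ ∑ b ∈ B, degB b := by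
      have e1 : ∑ b ∈ B, degB b = ∑ x ∈ X, ((B.filter fun y => (x, y) ∈ S).card : ℝ) := by
        simp only [hdegB, Finset.card_filter]
        push_cast
        rw [Finset.sum_comm]
      rw [e1]
      have e2 : (X.card : ℝ) * (ε / 2 * n) ≤ ∑ x ∈ X, ((B.filter fun y => (x, y) ∈ S).card : ℝ) := by
        rw [← nsmul_eq_mul]
        exact Finset.card_nsmul_le_sum _ _ _ fun x hx => hX'deg x (hXX' hx)
      linarith
    have h2 : ∑ b ∈ B, degB b ≤ ∑ b ∈ B₁, degB b + ε / 4 * X.card * n := by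
      rw [← Finset.sum_filter_add_sum_filter_not B (fun b => ε / 4 * X.card ≤ degB b)]
      refine add_le_add le_rfl ?_
      refine (Finset.sum_le_card_nsmul _ _ (ε / 4 * X.card) fun x hx =>
          (not_le.1 (Finset.mem_filter.1 hx).2).le).trans ?_
      rw [nsmul_eq_mul, mul_comm]
      refine mul_le_mul_of_nonneg_left ?_ (by positivity)
      exact (Nat.cast_le.2 (Finset.card_filter_le _ _)).trans hB'
    have h3 : ∑ b ∈ B₁, degB b = S₁.card := by
      have e1 : S₁.card = ∑ b ∈ B₁, (X.filter fun x => (x, b) ∈ S).card := by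
        rw [Finset.card_eq_sum_card_fiberwise (f := Prod.snd) (t := B₁)
          (fun z hz => Finset.mem_coe.2 (Finset.mem_filter.1 (Finset.mem_coe.1 hz)).2.2)]
        refine Finset.sum_congr rfl fun b hb => ?_
        refine Finset.card_bij (fun z _ => z.1) ?_ ?_ ?_
        · intro z hz
          rw [Finset.mem_filter, hS₁, Finset.mem_filter] at hz
          rw [Finset.mem_filter]
          refine ⟨hz.1.2.1, ?_⟩
          have : (z.1, b) = z := Prod.ext rfl hz.2.symm
          rw [this]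
          exact hz.1.1
        · intro z hz z' hz' h
          rw [Finset.mem_filter] at hz hz'
          exact Prod.ext h (hz.2.trans hz'.2.symm)
        · intro x hx
          rw [Finset.mem_filter] at hx
          refine ⟨(x, b), Finset.mem_filter.2 ⟨?_, rfl⟩, rfl⟩
          rw [hS₁]
          exact Finset.mem_filter.2 ⟨hx.2, hx.1, hb⟩
      rw [e1]
      push_cast
      rfl
    rw [h3] at h2
    linarith
  obtain ⟨T, hTc, hTcov⟩ := cover (ε / 4) n (by positivity) X B₁ C hXne hC' S
    (fun z hz => (hS z hz).2.2) (fun b hb => (Finset.mem_filter.1 hb).2)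
  set D : Finset G := -X + X with hD
  have hDneg : -D = D := by rw [hD, neg_add_rev, neg_neg]
  have hDDneg : -(D + D) = D + D := by rw [neg_add_rev, hDneg]
  set W : Finset G := X + (D + D) with hW
  set W' : Finset G := (D + D) + (D + T) with hW'
  have hW'c : (W'.card : ℝ) ≤ (4 * K₂ / ε) * n := by
    have h1 : W'.card ≤ (D + (D + D)).card * T.card := by
      rw [hW', ← add_assoc, add_assoc D D D]
      exact Finset.card_add_le
    have h2 : (W'.card : ℝ) ≤ (D + (D + D)).card * T.card := by exact_mod_cast h1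
    refine h2.trans ?_
    calc ((D + (D + D)).card : ℝ) * T.card ≤ (K₂ * X.card) * T.card := by
          exact mul_le_mul_of_nonneg_right hXD (Nat.cast_nonneg _)
      _ = (4 * K₂ / ε) * (T.card * (ε / 4 * X.card)) := by field_simp
      _ ≤ (4 * K₂ / ε) * n := by gcongr
  obtain ⟨H, q, hHne, hq0, hqz, hqa, hqB, hqM, hHc⟩ := almost_periods K₂ hK₂0 M p hp X hXne hXW
  -- a good almost period
  have hM1 : 1 ≤ M := by
    rw [hM]
    have : (0 : ℝ) ≤ (N : ℝ) * m := by positivity
    linarith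
  obtain ⟨h, hhH, hh0⟩ : ∃ h ∈ H, ¬ Pr h := by
    by_contra hcon
    push Not at hcon
    have h1 : c₁ * n ≤ H.card := by
      have e1 : (X.card : ℝ) ≤ 2 * K₂ ^ p * H.card := hHc
      rw [hc₁, div_mul_eq_mul_div, div_le_iff₀ (by positivity)]
      calc ε ^ 2 / 16 / (4 * K ^ 4) * (n : ℝ) ≤ X.card := hXn
        _ ≤ 2 * K₂ ^ p * H.card := e1
        _ = _ := by ring
    have h2 := hPr H fun g hg => ⟨by
      have h3 := hqM g ((hqB g hg).trans hM1)
      have h4 : X ⊆ A := hXX'.trans hX'A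
      have h5 : -X + X ⊆ -A + A := Finset.add_subset_add (Finset.neg_subset_neg h4) h4
      exact Finset.add_subset_add h5 h5 h3, hcon g hg⟩
    have h3 : 0 < c₁ * n := by positivity
    linarith
  -- density Hales-Jewett
  have hmul : ∀ j : ℕ, j ≤ N * m → j • h ∈ D + D := by
    intro j hj
    refine hqM _ ((q_nsmul hqz hqa _ _).trans ?_)
    have h2 := hqB h hhH
    have h3 : (j : ℝ) ≤ M := by
      rw [hM]
      have : (j : ℝ) ≤ (N : ℝ) * m := by exact_mod_cast hj
      linarith
    have h4 : (0 : ℝ) ≤ (j : ℝ) := Nat.cast_nonneg _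
    nlinarith [hq0 h]
  have hsum1 : ∀ x : Fin N → Fin m × Fin m, (∑ l, ((x l).1 : ℕ)) ≤ N * m := by
    intro x
    refine (Finset.sum_le_card_nsmul _ _ m fun l _ => (x l).1.2.le).trans ?_
    simp
  have hsum2 : ∀ x : Fin N → Fin m × Fin m, (∑ l, ((x l).2 : ℕ)) ≤ N * m := by
    intro x
    refine (Finset.sum_le_card_nsmul _ _ m fun l _ => (x l).2.2.le).trans ?_
    simp
  set S₂ : Finset (G × Gᵃᵒᵖ) := S₁.image fun z => (z.1, AddOpposite.op z.2) with hS₂
  have hS₂c : S₂.card = S₁.card := by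
    rw [hS₂]
    refine Finset.card_image_of_injective _ ?_
    intro z z' hz
    obtain ⟨e1, e2⟩ := Prod.ext_iff.1 hz
    exact Prod.ext e1 (AddOpposite.op_injective e2)
  set W₂ : Finset (G × Gᵃᵒᵖ) := (W ×ˢ W').image fun z => (z.1, AddOpposite.op z.2) with hW₂
  have hW₂c : (W₂.card : ℝ) ≤ (K₂ * X.card) * ((4 * K₂ / ε) * n) := by
    have h1 : W₂.card ≤ W.card * W'.card := by
      rw [hW₂, ← Finset.card_product]
      exact Finset.card_image_le
    have h2 : (W₂.card : ℝ) ≤ W.card * W'.card := by exact_mod_cast h1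
    refine h2.trans ?_
    exact mul_le_mul hXW hW'c (Nat.cast_nonneg _) (by positivity)
  have hS₁pos : (0 : ℝ) < S₁.card := lt_of_lt_of_le (by positivity) hS₁c
  obtain ⟨R, hR1, hR2⟩ := exists_lines (β := Fin m × Fin m) N δ hδ0 hN' S₂ W₂ (by
      rw [hS₂c]
      refine le_trans ?_ hS₁c
      calc 2 * δ * (W₂.card : ℝ) ≤ 2 * δ * ((K₂ * X.card) * ((4 * K₂ / ε) * n)) := by gcongr
        _ = ε / 4 * n * X.card := by
          rw [hδ]
          field_simp
          ring)
    (fun x => ((∑ l, ((x l).1 : ℕ)) • h, AddOpposite.op ((∑ l, ((x l).2 : ℕ)) • h))) (by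
      intro x a ha
      obtain ⟨z, hz, rfl⟩ := Finset.mem_image.1 ha
      rw [hS₁, Finset.mem_filter] at hz
      obtain ⟨hz1, hz2, hz3⟩ := hz
      rw [hW₂, Finset.mem_image]
      refine ⟨(z.1 + -((∑ l, ((x l).1 : ℕ)) • h), -((∑ l, ((x l).2 : ℕ)) • h) + z.2), ?_, ?_⟩
      · rw [Finset.mem_product]
        constructor
        · refine Finset.add_mem_add hz2 ?_
          rw [← hDDneg]
          exact Finset.neg_mem_neg (hmul _ (hsum1 x))
        · obtain ⟨t, ht, htD⟩ := hTcov z.2 hz3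
          refine Finset.add_mem_add ?_ ?_
          · rw [← hDDneg]
            exact Finset.neg_mem_neg (hmul _ (hsum2 x))
          · have := Finset.add_mem_add htD ht
            simpa using this
      · rfl)
  have hRpos : 0 < R.card := by
    rw [hS₂c] at hR1
    have : (0 : ℝ) < 2 * (R.card : ℝ) := lt_of_lt_of_le hS₁pos hR1
    have h2 : (0 : ℝ) < (R.card : ℝ) := by linarith
    exact_mod_cast h2
  obtain ⟨g, hg⟩ := Finset.card_pos.1 hRpos
  obtain ⟨u, ⟨l₀, hl₀⟩, hu⟩ := hR2 g hg
  set w : ℕ := (univ.filter fun l => u l = none).card with hw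
  set c : ℕ := ∑ l, ((u l).elim 0 fun v => (v.1 : ℕ)) with hc
  set c' : ℕ := ∑ l, ((u l).elim 0 fun v => (v.2 : ℕ)) with hc'
  refine ⟨g.1 + c • h, c' • h + AddOpposite.unop g.2, h, w, hh0, ?_, ?_, ?_⟩
  · exact Finset.card_pos.2 ⟨l₀, Finset.mem_filter.2 ⟨Finset.mem_univ _, hl₀⟩⟩
  · refine (Finset.card_filter_le _ _).trans ?_
    rw [Finset.card_univ, Fintype.card_fin]
  · intro i j
    have h1 := hu (i, j)
    have e1 : ∑ l, (((DHJ.pt u (i, j) l : Fin m × Fin m).1 : Fin m) : ℕ) = c + w * (i : ℕ) := by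
      rw [hc, hw, Finset.card_filter, Finset.sum_mul, ← Finset.sum_add_distrib]
      refine Finset.sum_congr rfl fun l _ => ?_
      unfold DHJ.pt
      cases u l with
      | none => simp
      | some v => simp
    have e2 : ∑ l, (((DHJ.pt u (i, j) l : Fin m × Fin m).2 : Fin m) : ℕ) = w * (j : ℕ) + c' := by
      rw [hc', hw, Finset.card_filter, Finset.sum_mul, ← Finset.sum_add_distrib]
      refine Finset.sum_congr rfl fun l _ => ?_
      unfold DHJ.pt
      cases u l with
      | none => simp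
      | some v => simp
    obtain ⟨z, hz, hz'⟩ := Finset.mem_image.1 h1
    obtain ⟨e3, e4⟩ := Prod.ext_iff.1 hz'
    have e3 : z.1 = g.1 + (∑ l, (((DHJ.pt u (i, j) l : Fin m × Fin m).1 : Fin m) : ℕ)) • h := e3
    have e4 : AddOpposite.op z.2 =
      g.2 + AddOpposite.op ((∑ l, (((DHJ.pt u (i, j) l : Fin m × Fin m).2 : Fin m) : ℕ)) • h) := e4
    have e5 : z.2 = (∑ l, (((DHJ.pt u (i, j) l : Fin m × Fin m).2 : Fin m) : ℕ)) • h +
        AddOpposite.unop g.2 := by
      have := congrArg AddOpposite.unop e4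
      simpa using this
    rw [e1, add_nsmul, ← add_assoc] at e3
    rw [e2, add_nsmul, add_assoc] at e5
    have e6 : (g.1 + c • h + (w * (i : ℕ)) • h, (w * (j : ℕ)) • h + (c' • h + AddOpposite.unop g.2)) = z :=
      Prod.ext e3.symm e5.symm
    rw [e6]
    exact (Finset.mem_filter.1 hz).1

end Run7.h50.BES.Inf
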