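import Mathlib
import Pool.Agent.Run7.h50.BES.Shape

/-!
# Uniform hypergraphs with a marked triple in each edge
-/

set_option autoImplicit false
set_option linter.unusedSectionVars false
set_option linter.unusedVariables false

namespace Run7.h50.BES

open Finset

section
variable {V : Type} [DecidableEq V]

/-- the triple `t` consists of three different vertices of `a` -/
def Marks (a : Finset V) (t : V × V × V) : Prop :=
  t.1 ∈ a ∧ t.2.1 ∈ a ∧ t.2.2 ∈ a ∧ t.1 ≠ t.2.1 ∧ t.1 ≠ t.2.2 ∧ t.2.1 ≠ t.2.2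

/-- `e` edges with at most `(r - 2) e + 3` vertices -/
def Sparse (E : Finset (Finset V)) (r e : ℕ) : Prop :=
  ∃ E' ⊆ E, E'.card = e ∧ (E'.biUnion id).card ≤ (r - 2) * e + 3

theorem sparse_of_pair (E : Finset (Finset V)) (r e : ℕ) (hr : 3 ≤ r)
    (hE : ∀ a ∈ E, a.card = r) (u v : V) (huv : u ≠ v) (F : Finset (Finset V)) (hF : F ⊆ E)
    (hFe : e ≤ F.card) (hFuv : ∀ a ∈ F, u ∈ a ∧ v ∈ a) : Sparse E r e := by
  obtain ⟨E', hE'F, hE'⟩ := Finset.exists_subset_card_eq hFe
  refine ⟨E', hE'F.trans hF, hE', ?_⟩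
  have h1 : E'.biUnion id ⊆ {u, v} ∪ E'.biUnion fun a => a \ {u, v} := by
    intro w hw
    obtain ⟨a, ha, hwa⟩ := Finset.mem_biUnion.1 hw
    by_cases hwuv : w ∈ ({u, v} : Finset V)
    · exact Finset.mem_union_left _ hwuv
    · exact Finset.mem_union_right _ (Finset.mem_biUnion.2 ⟨a, ha, Finset.mem_sdiff.2 ⟨hwa, hwuv⟩⟩)
  have h2 : (E'.biUnion fun a => a \ {u, v}).card ≤ E'.card * (r - 2) := by
    refine Finset.card_biUnion_le_card_mul _ _ _ fun a ha => ?_
    have h3 : ({u, v} : Finset V) ⊆ a := by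
      intro w hw
      rw [Finset.mem_insert, Finset.mem_singleton] at hw
      obtain ⟨h4, h5⟩ := hFuv a (hE'F ha)
      rcases hw with rfl | rfl
      · exact h4
      · exact h5
    rw [Finset.card_sdiff_of_subset h3, hE a (hF (hE'F ha)), Finset.card_pair huv]
  refine (Finset.card_le_card h1).trans ((Finset.card_union_le _ _).trans ?_)
  rw [Finset.card_pair huv]
  rw [hE'] at h2
  have : e * (r - 2) = (r - 2) * e := mul_comm _ _
  omega

/-- a configuration of marked triples gives a sparse set of edges -/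
theorem sparse_of_triples (E E₁ : Finset (Finset V)) (hE₁ : E₁ ⊆ E) (r e : ℕ) (hr : 3 ≤ r)
    (hE : ∀ a ∈ E, a.card = r) (τ : Finset V → V × V × V) (hτ : ∀ a ∈ E, Marks a (τ a))
    (hinj : ∀ a ∈ E₁, ∀ b ∈ E₁, τ a = τ b → a = b)
    (T' : Finset (V × V × V)) (hT' : T' ⊆ E₁.image τ) (hc : T'.card = e)
    (hs : (T'.image fun t => t.1).card + (T'.image fun t => t.2.1).card +
      (T'.image fun t => t.2.2).card ≤ e + 3) : Sparse E r e := by
  set E' := E₁.filter fun a => τ a ∈ T' with hE'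
  have him : E'.image τ = T' := by
    ext t
    rw [Finset.mem_image]
    constructor
    · rintro ⟨a, ha, rfl⟩
      exact (Finset.mem_filter.1 ha).2
    · intro ht
      obtain ⟨a, ha, rfl⟩ := Finset.mem_image.1 (hT' ht)
      exact ⟨a, Finset.mem_filter.2 ⟨ha, ht⟩, rfl⟩
  have hcard : E'.card = e := by
    rw [← hc, ← him, Finset.card_image_of_injOn]
    intro a ha b hb h
    exact hinj a (Finset.mem_filter.1 (Finset.mem_coe.1 ha)).1 b
      (Finset.mem_filter.1 (Finset.mem_coe.1 hb)).1 h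
  refine ⟨E', (Finset.filter_subset _ _).trans hE₁, hcard, ?_⟩
  have h1 : E'.biUnion id ⊆ ((T'.image fun t => t.1) ∪ (T'.image fun t => t.2.1) ∪
      (T'.image fun t => t.2.2)) ∪ E'.biUnion fun a => a \ {(τ a).1, (τ a).2.1, (τ a).2.2} := by
    intro w hw
    obtain ⟨a, ha, hwa⟩ := Finset.mem_biUnion.1 hw
    have hta : τ a ∈ T' := (Finset.mem_filter.1 ha).2
    by_cases hwt : w ∈ ({(τ a).1, (τ a).2.1, (τ a).2.2} : Finset V)
    · refine Finset.mem_union_left _ ?_
      rw [Finset.mem_insert, Finset.mem_insert, Finset.mem_singleton] at hwt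
      rcases hwt with rfl | rfl | rfl
      · exact Finset.mem_union_left _ (Finset.mem_union_left _ (Finset.mem_image_of_mem _ hta))
      · exact Finset.mem_union_left _ (Finset.mem_union_right _
          (Finset.mem_image.2 ⟨τ a, hta, rfl⟩))
      · exact Finset.mem_union_right _ (Finset.mem_image.2 ⟨τ a, hta, rfl⟩)
    · exact Finset.mem_union_right _ (Finset.mem_biUnion.2 ⟨a, ha, Finset.mem_sdiff.2 ⟨hwa, hwt⟩⟩)
  have h2 : (E'.biUnion fun a => a \ {(τ a).1, (τ a).2.1, (τ a).2.2}).card ≤ E'.card * (r - 3) := by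
    refine Finset.card_biUnion_le_card_mul _ _ _ fun a ha => ?_
    have haE : a ∈ E := hE₁ (Finset.mem_filter.1 ha).1
    obtain ⟨m1, m2, m3, m4, m5, m6⟩ := hτ a haE
    have h3 : ({(τ a).1, (τ a).2.1, (τ a).2.2} : Finset V) ⊆ a := by
      intro w hw
      rw [Finset.mem_insert, Finset.mem_insert, Finset.mem_singleton] at hw
      rcases hw with rfl | rfl | rfl
      · exact m1
      · exact m2
      · exact m3
    rw [Finset.card_sdiff_of_subset h3, hE a haE, Finset.card_eq_three.2 ⟨_, _, _, m4, m5, m6, rfl⟩]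
  rw [hcard] at h2
  refine (Finset.card_le_card h1).trans ((Finset.card_union_le _ _).trans ?_)
  have h3 := Finset.card_union_le ((T'.image fun t => t.1) ∪ (T'.image fun t => t.2.1))
    (T'.image fun t => t.2.2)
  have h4 := Finset.card_union_le (T'.image fun t => t.1) (T'.image fun t => t.2.1)
  have h5 : (r - 2) * e = e * (r - 3) + e := by
    obtain ⟨s, rfl⟩ := Nat.exists_eq_add_of_le hr
    have e1 : 3 + s - 2 = s + 1 := by omega
    have e2 : 3 + s - 3 = s := by omega
    rw [e1, e2]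
    ring
  omega

/-- Either there is a sparse set of edges, or the marked triples of many edges are a linear
system. -/
theorem reduce (E : Finset (Finset V)) (r e : ℕ) (hr : 3 ≤ r)
    (hE : ∀ a ∈ E, a.card = r) (τ : Finset V → V × V × V) (hτ : ∀ a ∈ E, Marks a (τ a)) :
    Sparse E r e ∨ ∃ E₁ ⊆ E, E.card ≤ 3 * e * E₁.card ∧ Lin (E₁.image τ) ∧
      ∀ a ∈ E₁, ∀ b ∈ E₁, τ a = τ b → a = b := by
  classical
  by_cases hsp : Sparse E r e
  · exact Or.inl hsp
  right
  -- conflicts
  set cf : Finset V → Finset V → Prop := fun a b =>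
    ((τ a).1 = (τ b).1 ∧ (τ a).2.1 = (τ b).2.1) ∨ ((τ a).1 = (τ b).1 ∧ (τ a).2.2 = (τ b).2.2) ∨
      ((τ a).2.1 = (τ b).2.1 ∧ (τ a).2.2 = (τ b).2.2) with hcf
  set fam : Finset (Finset (Finset V)) := E.powerset.filter fun M =>
    ∀ a ∈ M, ∀ b ∈ M, cf a b → a = b with hfam
  have hne : fam.Nonempty := ⟨∅, by simp [hfam]⟩
  obtain ⟨M, hM, hmax⟩ := Finset.exists_max_image fam Finset.card hne
  rw [hfam, Finset.mem_filter, Finset.mem_powerset] at hM
  obtain ⟨hME, hMcf⟩ := hM
  have hrefl : ∀ a, cf a a := fun a => Or.inl ⟨rfl, rfl⟩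
  have hsymm : ∀ a b, cf a b → cf b a := by
    rintro a b (⟨h1, h2⟩ | ⟨h1, h2⟩ | ⟨h1, h2⟩)
    · exact Or.inl ⟨h1.symm, h2.symm⟩
    · exact Or.inr (Or.inl ⟨h1.symm, h2.symm⟩)
    · exact Or.inr (Or.inr ⟨h1.symm, h2.symm⟩)
  have hcov : ∀ a ∈ E, ∃ b ∈ M, cf a b := by
    intro a ha
    by_cases haM : a ∈ M
    · exact ⟨a, haM, hrefl a⟩
    by_contra hcon
    push Not at hcon
    have hins : insert a M ∈ fam := by
      rw [hfam, Finset.mem_filter, Finset.mem_powerset]
      refine ⟨Finset.insert_subset ha hME, ?_⟩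
      intro b hb c hc hbc
      rw [Finset.mem_insert] at hb hc
      rcases hb with rfl | hb <;> rcases hc with rfl | hc
      · rfl
      · exact absurd hbc (hcon c hc)
      · exact absurd (hsymm _ _ hbc) (hcon b hb)
      · exact hMcf b hb c hc hbc
    have := hmax _ hins
    rw [Finset.card_insert_of_notMem haM] at this
    omega
  refine ⟨M, hME, ?_, ?_, ?_⟩
  · -- counting
    have hcl : ∀ b ∈ M, (E.filter fun a => cf a b).card ≤ 3 * e := by
      intro b hb
      obtain ⟨m1, m2, m3, m4, m5, m6⟩ := hτ b (hME hb)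
      have h1 : (E.filter fun a => cf a b) ⊆
          ((E.filter fun a => (τ a).1 = (τ b).1 ∧ (τ a).2.1 = (τ b).2.1) ∪
          (E.filter fun a => (τ a).1 = (τ b).1 ∧ (τ a).2.2 = (τ b).2.2)) ∪
          (E.filter fun a => (τ a).2.1 = (τ b).2.1 ∧ (τ a).2.2 = (τ b).2.2) := by
        intro a ha
        rw [Finset.mem_filter] at ha
        simp only [Finset.mem_union, Finset.mem_filter]
        rcases ha.2 with h | h | h
        · exact Or.inl (Or.inl ⟨ha.1, h⟩)
        · exact Or.inl (Or.inr ⟨ha.1, h⟩)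
        · exact Or.inr ⟨ha.1, h⟩
      have a1 : (E.filter fun a => (τ a).1 = (τ b).1 ∧ (τ a).2.1 = (τ b).2.1).card ≤ e := by
        by_contra hcon
        push Not at hcon
        refine hsp (sparse_of_pair E r e hr hE (τ b).1 (τ b).2.1 m4 _ (Finset.filter_subset _ _)
          hcon.le ?_)
        intro a ha
        rw [Finset.mem_filter] at ha
        obtain ⟨n1, n2, n3, _⟩ := hτ a ha.1
        rw [← ha.2.1, ← ha.2.2]
        exact ⟨n1, n2⟩
      have a2 : (E.filter fun a => (τ a).1 = (τ b).1 ∧ (τ a).2.2 = (τ b).2.2).card ≤ e := by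
        by_contra hcon
        push Not at hcon
        refine hsp (sparse_of_pair E r e hr hE (τ b).1 (τ b).2.2 m5 _ (Finset.filter_subset _ _)
          hcon.le ?_)
        intro a ha
        rw [Finset.mem_filter] at ha
        obtain ⟨n1, n2, n3, _⟩ := hτ a ha.1
        rw [← ha.2.1, ← ha.2.2]
        exact ⟨n1, n3⟩
      have a3 : (E.filter fun a => (τ a).2.1 = (τ b).2.1 ∧ (τ a).2.2 = (τ b).2.2).card ≤ e := by
        by_contra hcon
        push Not at hcon
        refine hsp (sparse_of_pair E r e hr hE (τ b).2.1 (τ b).2.2 m6 _ (Finset.filter_subset _ _)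
          hcon.le ?_)
        intro a ha
        rw [Finset.mem_filter] at ha
        obtain ⟨n1, n2, n3, _⟩ := hτ a ha.1
        rw [← ha.2.1, ← ha.2.2]
        exact ⟨n2, n3⟩
      refine (Finset.card_le_card h1).trans ((Finset.card_union_le _ _).trans ?_)
      have := Finset.card_union_le (E.filter fun a => (τ a).1 = (τ b).1 ∧ (τ a).2.1 = (τ b).2.1)
        (E.filter fun a => (τ a).1 = (τ b).1 ∧ (τ a).2.2 = (τ b).2.2)
      omega
    have h1 : E ⊆ M.biUnion fun b => E.filter fun a => cf a b := by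
      intro a ha
      obtain ⟨b, hb, hab⟩ := hcov a ha
      exact Finset.mem_biUnion.2 ⟨b, hb, Finset.mem_filter.2 ⟨ha, hab⟩⟩
    refine (Finset.card_le_card h1).trans ((Finset.card_biUnion_le_card_mul _ _ _ hcl).trans ?_)
    rw [mul_comm]
  · refine ⟨?_, ?_, ?_⟩
    · intro x y z z' h h'
      obtain ⟨a, ha, hta⟩ := Finset.mem_image.1 h
      obtain ⟨b, hb, htb⟩ := Finset.mem_image.1 h'
      have : a = b := hMcf a ha b hb (by
        rw [hcf]
        simp only [hta, htb, true_and, true_or])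
      rw [this, htb] at hta
      exact (Prod.mk.inj (Prod.mk.inj hta).2).2.symm
    · intro x y y' z h h'
      obtain ⟨a, ha, hta⟩ := Finset.mem_image.1 h
      obtain ⟨b, hb, htb⟩ := Finset.mem_image.1 h'
      have : a = b := hMcf a ha b hb (by
        rw [hcf]
        simp only [hta, htb, true_and, and_true, true_or, or_true])
      rw [this, htb] at hta
      exact (Prod.mk.inj (Prod.mk.inj hta).2).1.symm
    · intro x x' y z h h'
      obtain ⟨a, ha, hta⟩ := Finset.mem_image.1 h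
      obtain ⟨b, hb, htb⟩ := Finset.mem_image.1 h'
      have : a = b := hMcf a ha b hb (by
        rw [hcf]
        simp only [hta, htb, true_and, and_true, or_true])
      rw [this, htb] at hta
      exact (Prod.mk.inj hta).1.symm
  · intro a ha b hb h
    exact hMcf a ha b hb (Or.inl ⟨by rw [h], by rw [h]⟩)

/-- **Power saving.** -/
theorem power_saving [Fintype V] (E : Finset (Finset V)) (r e d : ℕ) (hr : 3 ≤ r)
    (he : e = 18 ∨ 22 ≤ e) (hE : ∀ a ∈ E, a.card = r) (τ : Finset V → V × V × V)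
    (hτ : ∀ a ∈ E, Marks a (τ a)) (F : V × V × V → Finset V) (hF : ∀ u, (F u).card ≤ d)
    (hlab : ∀ x x' y y' z₁ z₂ z₃ z₄, (x, y, z₁) ∈ E.image τ → (x, y', z₂) ∈ E.image τ →
      (x', y, z₃) ∈ E.image τ → (x', y', z₄) ∈ E.image τ → z₄ ∈ F (z₁, z₂, z₃))
    (hm : 4 * (e + 12) * (3 * e) ^ 16 * d ^ 2 * Fintype.card V ^ 31 < E.card ^ 16) :
    Sparse E r e := by
  rcases reduce E r e hr hE τ hτ with h | ⟨E₁, hE₁, hc, hlin, hinj⟩
  · exact h
  have hpos : 0 < E.card := by
    rcases Nat.eq_zero_or_pos E.card with h | h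
    · rw [h] at hm
      simp at hm
    · exact h
  have hV : 0 < Fintype.card V := by
    obtain ⟨a, ha⟩ := Finset.card_pos.1 hpos
    have h1 : 0 < a.card := by rw [hE a ha]; omega
    obtain ⟨v, _⟩ := Finset.card_pos.1 h1
    exact Fintype.card_pos_iff.2 ⟨v⟩
  have hTc : (E₁.image τ).card = E₁.card := Finset.card_image_of_injOn fun a ha b hb h =>
    hinj a (Finset.mem_coe.1 ha) b (Finset.mem_coe.1 hb) h
  obtain ⟨T', hT', hT'c, hT's⟩ := few_labels hlin (Fintype.card V) d e hV he le_rfl le_rfl le_rfl F hF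
    (fun x x' y y' z₁ z₂ z₃ z₄ h1 h2 h3 h4 => hlab x x' y y' z₁ z₂ z₃ z₄
      (Finset.image_subset_image hE₁ h1) (Finset.image_subset_image hE₁ h2)
      (Finset.image_subset_image hE₁ h3) (Finset.image_subset_image hE₁ h4)) (by
      rw [hTc]
      have h1 : 4 * (e + 12) * (3 * e) ^ 16 * d ^ 2 * Fintype.card V ^ 31 <
          (3 * e) ^ 16 * E₁.card ^ 16 := by
        calc _ < E.card ^ 16 := hm
          _ ≤ (3 * e * E₁.card) ^ 16 := Nat.pow_le_pow_left hc 16
          _ = _ := by rw [mul_pow]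
      have h2 : (3 * e) ^ 16 * (4 * (e + 12) * d ^ 2 * Fintype.card V ^ 31) <
          (3 * e) ^ 16 * E₁.card ^ 16 := by
        calc _ = 4 * (e + 12) * (3 * e) ^ 16 * d ^ 2 * Fintype.card V ^ 31 := by ring
          _ < _ := h1
      exact Nat.lt_of_mul_lt_mul_left h2)
  exact sparse_of_triples E E₁ hE₁ r e hr hE τ hτ hinj T' hT' hT'c hT's

end

end Run7.h50.BES
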