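import Mathlib
import Pool.Agent.Run7.h50.BES.IGrid
import Pool.Agent.Run7.h50.BES.Reduce

/-!
# Uniform hypergraphs with a triple embedded in a group in each edge
-/

set_option autoImplicit false
set_option linter.unusedSectionVars false
set_option linter.unusedVariables false

namespace Run7.h50.BES

open Finset
open scoped Pointwise

theorem union_le {V : Type} [DecidableEq V] (E' : Finset (Finset V)) (r : ℕ)
    (hE : ∀ a ∈ E', a.card = r) (τ : Finset V → V × V × V) (hτ : ∀ a ∈ E', Marks a (τ a))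
    (T' : Finset (V × V × V)) (hT' : ∀ a ∈ E', τ a ∈ T') :
    (E'.biUnion id).card ≤ E'.card * (r - 3) + ((T'.image fun t => t.1).card +
      (T'.image fun t => t.2.1).card + (T'.image fun t => t.2.2).card) := by
  have h1 : E'.biUnion id ⊆ ((T'.image fun t => t.1) ∪ (T'.image fun t => t.2.1) ∪
      (T'.image fun t => t.2.2)) ∪ E'.biUnion fun a => a \ {(τ a).1, (τ a).2.1, (τ a).2.2} := by
    intro w hw
    obtain ⟨a, ha, hwa⟩ := Finset.mem_biUnion.1 hw
    have hta : τ a ∈ T' := hT' a ha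
    by_cases hwt : w ∈ ({(τ a).1, (τ a).2.1, (τ a).2.2} : Finset V)
    · refine Finset.mem_union_left _ ?_
      rw [Finset.mem_insert, Finset.mem_insert, Finset.mem_singleton] at hwt
      rcases hwt with rfl | rfl | rfl
      · exact Finset.mem_union_left _ (Finset.mem_union_left _ (Finset.mem_image_of_mem _ hta))
      · exact Finset.mem_union_left _ (Finset.mem_union_right _
          (Finset.mem_image.2 ⟨τ a, hta, rfl⟩))
      · exact Finset.mem_union_right _ (Finset.mem_image.2 ⟨τ a, hta, rfl⟩)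
    · exact Finset.mem_union_right _ (Finset.mem_biUnion.2 ⟨a, ha, Finset.mem_sdiff.2 ⟨hwa, hwt⟩⟩)
  have h2 : (E'.biUnion fun a => a \ {(τ a).1, (τ a).2.1, (τ a).2.2}).card ≤ E'.card * (r - 3) := by
    refine Finset.card_biUnion_le_card_mul _ _ _ fun a ha => ?_
    obtain ⟨m1, m2, m3, m4, m5, m6⟩ := hτ a ha
    have h3 : ({(τ a).1, (τ a).2.1, (τ a).2.2} : Finset V) ⊆ a := by
      intro w hw
      rw [Finset.mem_insert, Finset.mem_insert, Finset.mem_singleton] at hw
      rcases hw with rfl | rfl | rfl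
      · exact m1
      · exact m2
      · exact m3
    rw [Finset.card_sdiff_of_subset h3, hE a ha, Finset.card_eq_three.2 ⟨_, _, _, m4, m5, m6, rfl⟩]
  refine (Finset.card_le_card h1).trans ((Finset.card_union_le _ _).trans ?_)
  have h3 := Finset.card_union_le ((T'.image fun t => t.1) ∪ (T'.image fun t => t.2.1))
    (T'.image fun t => t.2.2)
  have h4 := Finset.card_union_le (T'.image fun t => t.1) (T'.image fun t => t.2.1)
  omega

namespace Inf

theorem config (m : ℕ) (hm : 1 ≤ m) (ε : ℝ) (hε : 0 < ε) : ∃ (P : ℕ) (κ : ℝ), 0 < κ ∧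
    ∀ (G V : Type) [AddGroup G] [Fintype V] [DecidableEq V]
      (E : Finset (Finset V)) (r : ℕ) (τ : Finset V → V × V × V) (α β γ : V → G),
      (∀ a ∈ E, a.card = r) → (∀ a ∈ E, Marks a (τ a)) →
      (∀ a ∈ E, ∀ b ∈ E, α (τ a).1 = α (τ b).1 → (τ a).1 = (τ b).1) →
      (∀ a ∈ E, ∀ b ∈ E, β (τ a).2.1 = β (τ b).2.1 → (τ a).2.1 = (τ b).2.1) →
      (∀ a ∈ E, ∀ b ∈ E, γ (τ a).2.2 = γ (τ b).2.2 → (τ a).2.2 = (τ b).2.2) →
      (∀ a ∈ E, α (τ a).1 + β (τ a).2.1 = γ (τ a).2.2) → 0 < Fintype.card V →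
      ε * (Fintype.card V : ℝ) ^ 2 ≤ E.card →
      (∀ W : Finset G, (∀ g ∈ W, (∃ u v u' v', g = (-α u + α v) + (-α u' + α v')) ∧
        ∃ j, 0 < j ∧ j < P ∧ j • g = 0) → (W.card : ℝ) ≤ κ * Fintype.card V) →
      ∀ J : Finset (ℕ × ℕ), (∀ z ∈ J, z.1 < m ∧ z.2 < m) → J.Nonempty →
      ∃ E' ⊆ E, E'.card = J.card ∧ (E'.biUnion id).card ≤ J.card * (r - 3) +
        ((J.image Prod.fst).card + (J.image Prod.snd).card +
          (J.image fun z => z.1 + z.2).card) := by
  classical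
  obtain ⟨N, κ, hκ, hgrid⟩ := grid m hm (ε / (m ^ 2 : ℕ)) (by positivity)
  refine ⟨N * m + 1, κ, hκ, ?_⟩
  intro G V _ _ _ E r τ α β γ hEr hτ hα hβ hγ hrel hV hE hW J hJ hJne
  have hJc : J.card ≤ m ^ 2 := by
    have h1 : J ⊆ Finset.range m ×ˢ Finset.range m := by
      intro z hz
      obtain ⟨h2, h3⟩ := hJ z hz
      exact Finset.mem_product.2 ⟨Finset.mem_range.2 h2, Finset.mem_range.2 h3⟩
    refine (Finset.card_le_card h1).trans (le_of_eq ?_)
    rw [Finset.card_product, Finset.card_range, sq]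
  have hJ1 : 1 ≤ (J.image Prod.fst).card := (hJne.image _).card_pos
  have hJ2 : 1 ≤ (J.image Prod.snd).card := (hJne.image _).card_pos
  have hJ3 : 1 ≤ (J.image fun z => z.1 + z.2).card := (hJne.image _).card_pos
  by_cases hfib : ∃ t ∈ E.image τ, m ^ 2 < (E.filter fun a => τ a = t).card
  · obtain ⟨t, _, ht⟩ := hfib
    obtain ⟨E', hE', hE'c⟩ := Finset.exists_subset_card_eq (hJc.trans ht.le)
    have hsub : E' ⊆ E := hE'.trans (Finset.filter_subset _ _)
    refine ⟨E', hsub, hE'c, ?_⟩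
    have h1 := union_le E' r (fun a ha => hEr a (hsub ha)) τ (fun a ha => hτ a (hsub ha)) {t}
      (fun a ha => by rw [Finset.mem_singleton]; exact (Finset.mem_filter.1 (hE' ha)).2)
    rw [hE'c] at h1
    simp only [Finset.image_singleton, Finset.card_singleton] at h1
    omega
  push Not at hfib
  set T := E.image τ with hT
  have hET : E.card ≤ m ^ 2 * T.card := Finset.card_le_mul_card_image E _ hfib
  have hTrel : ∀ t ∈ T, α t.1 + β t.2.1 = γ t.2.2 := by
    intro t ht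
    obtain ⟨a, ha, rfl⟩ := Finset.mem_image.1 ht
    exact hrel a ha
  have hα' : ∀ t ∈ T, ∀ t' ∈ T, α t.1 = α t'.1 → t.1 = t'.1 := by
    intro t ht t' ht'
    obtain ⟨a, ha, rfl⟩ := Finset.mem_image.1 ht
    obtain ⟨b, hb, rfl⟩ := Finset.mem_image.1 ht'
    exact hα a ha b hb
  have hβ' : ∀ t ∈ T, ∀ t' ∈ T, β t.2.1 = β t'.2.1 → t.2.1 = t'.2.1 := by
    intro t ht t' ht'
    obtain ⟨a, ha, rfl⟩ := Finset.mem_image.1 ht
    obtain ⟨b, hb, rfl⟩ := Finset.mem_image.1 ht'
    exact hβ a ha b hb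
  have hγ' : ∀ t ∈ T, ∀ t' ∈ T, γ t.2.2 = γ t'.2.2 → t.2.2 = t'.2.2 := by
    intro t ht t' ht'
    obtain ⟨a, ha, rfl⟩ := Finset.mem_image.1 ht
    obtain ⟨b, hb, rfl⟩ := Finset.mem_image.1 ht'
    exact hγ a ha b hb
  set S : Finset (G × G) := T.image fun t => (α t.1, β t.2.1) with hS
  have hSc : S.card = T.card := by
    rw [hS]
    refine Finset.card_image_of_injOn ?_
    intro t ht t' ht' h
    obtain ⟨h1, h2⟩ := Prod.ext_iff.1 h
    have h1 : t.1 = t'.1 := hα' t (Finset.mem_coe.1 ht) t' (Finset.mem_coe.1 ht') h1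
    have h2 : t.2.1 = t'.2.1 := hβ' t (Finset.mem_coe.1 ht) t' (Finset.mem_coe.1 ht') h2
    have h3 : t.2.2 = t'.2.2 := by
      refine hγ' t (Finset.mem_coe.1 ht) t' (Finset.mem_coe.1 ht') ?_
      rw [← hTrel t (Finset.mem_coe.1 ht), ← hTrel t' (Finset.mem_coe.1 ht'), h1, h2]
    exact Prod.ext h1 (Prod.ext h2 h3)
  obtain ⟨a, b, h, w, hh, hw1, hwN, hgr⟩ := hgrid G (univ.image α) (univ.image β) (univ.image γ) S
    (Fintype.card V) (fun g => ∃ j, 0 < j ∧ j < N * m + 1 ∧ j • g = 0) hV (by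
      refine Finset.card_image_le.trans ?_
      rw [Finset.card_univ]) (by
      refine Finset.card_image_le.trans ?_
      rw [Finset.card_univ]) (by
      refine Finset.card_image_le.trans ?_
      rw [Finset.card_univ]) (by
      intro z hz
      obtain ⟨t, ht, rfl⟩ := Finset.mem_image.1 hz
      refine ⟨Finset.mem_image_of_mem _ (Finset.mem_univ _),
        Finset.mem_image_of_mem _ (Finset.mem_univ _), ?_⟩
      show α t.1 + β t.2.1 ∈ _
      rw [hTrel t ht]
      exact Finset.mem_image_of_mem _ (Finset.mem_univ _)) (by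
      rw [hSc]
      have h1 : (E.card : ℝ) ≤ ((m ^ 2 : ℕ) : ℝ) * T.card := by exact_mod_cast hET
      have h2 : (0 : ℝ) < ((m ^ 2 : ℕ) : ℝ) := by positivity
      rw [div_mul_eq_mul_div, div_le_iff₀ h2, mul_comm (T.card : ℝ)]
      exact hE.trans h1) (by
      intro W hWW
      refine hW W fun g hg => ⟨?_, (hWW g hg).2⟩
      obtain ⟨d, hd, d', hd', rfl⟩ := Finset.mem_add.1 (hWW g hg).1
      obtain ⟨u, hu, v, hv, rfl⟩ := Finset.mem_add.1 hd
      obtain ⟨u', hu', v', hv', rfl⟩ := Finset.mem_add.1 hd'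
      rw [Finset.mem_neg] at hu hu'
      obtain ⟨u₀, hu₀, rfl⟩ := hu
      obtain ⟨u₁, hu₁, rfl⟩ := hu'
      obtain ⟨x₀, _, rfl⟩ := Finset.mem_image.1 hu₀
      obtain ⟨x₁, _, rfl⟩ := Finset.mem_image.1 hu₁
      obtain ⟨y₀, _, rfl⟩ := Finset.mem_image.1 hv
      obtain ⟨y₁, _, rfl⟩ := Finset.mem_image.1 hv'
      exact ⟨x₀, y₀, x₁, y₁, rfl⟩)
  -- the triples
  obtain ⟨v₀⟩ := Fintype.card_pos_iff.1 hV
  have hgr' : ∀ i j : ℕ, ∃ t : V × V × V, i < m → j < m → t ∈ T ∧ α t.1 = a + (w * i) • h ∧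
      β t.2.1 = (w * j) • h + b := by
    intro i j
    by_cases hij : i < m ∧ j < m
    · obtain ⟨t, ht, h1⟩ := Finset.mem_image.1 (hgr ⟨i, hij.1⟩ ⟨j, hij.2⟩)
      obtain ⟨h2, h3⟩ := Prod.ext_iff.1 h1
      exact ⟨t, fun _ _ => ⟨ht, h2, h3⟩⟩
    · exact ⟨(v₀, v₀, v₀), fun h1 h2 => absurd ⟨h1, h2⟩ hij⟩
  choose t ht using hgr'
  have hinj : ∀ i i' : ℕ, i < m → i' < m → (w * i) • h = (w * i') • h → i = i' := by
    have aux : ∀ i i' : ℕ, i < i' → i' < m → (w * i) • h ≠ (w * i') • h := by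
      intro i i' hlt hi' he
      have h2 : w * i' = w * (i' - i) + w * i := by rw [← mul_add]; congr 1; omega
      rw [h2, add_nsmul] at he
      have h3 : (w * (i' - i)) • h = 0 := right_eq_add.1 he
      refine hh ⟨w * (i' - i), Nat.mul_pos (by omega) (by omega), ?_, h3⟩
      have h4 : w * (i' - i) ≤ N * m := Nat.mul_le_mul hwN (by omega)
      omega
    intro i i' hi hi' he
    rcases lt_trichotomy i i' with h1 | h1 | h1
    · exact absurd he (aux i i' h1 hi')
    · exact h1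
    · exact absurd he.symm (aux i' i h1 hi)
  have hsec : ∀ u : V × V × V, ∃ a : Finset V, u ∈ T → a ∈ E ∧ τ a = u := by
    intro u
    by_cases hu : u ∈ T
    · obtain ⟨a, ha, h1⟩ := Finset.mem_image.1 hu
      exact ⟨a, fun _ => ⟨ha, h1⟩⟩
    · exact ⟨∅, fun h => absurd h hu⟩
  choose sec hsec using hsec
  have htT : ∀ z ∈ J, t z.1 z.2 ∈ T := fun z hz => (ht z.1 z.2 (hJ z hz).1 (hJ z hz).2).1
  set T' : Finset (V × V × V) := J.image fun z => t z.1 z.2 with hT'
  have hT'T : T' ⊆ T := by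
    intro u hu
    obtain ⟨z, hz, rfl⟩ := Finset.mem_image.1 hu
    exact htT z hz
  have hT'c : T'.card = J.card := by
    rw [hT']
    refine Finset.card_image_of_injOn ?_
    intro z hz z' hz' he
    obtain ⟨hz1, hz2⟩ := hJ z (Finset.mem_coe.1 hz)
    obtain ⟨hz1', hz2'⟩ := hJ z' (Finset.mem_coe.1 hz')
    have he : t z.1 z.2 = t z'.1 z'.2 := he
    obtain ⟨-, h2, h3⟩ := ht z.1 z.2 hz1 hz2
    obtain ⟨-, h2', h3'⟩ := ht z'.1 z'.2 hz1' hz2'
    rw [← he] at h2' h3'
    refine Prod.ext (hinj _ _ hz1 hz1' ?_) (hinj _ _ hz2 hz2' ?_)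
    · exact add_left_cancel (h2.symm.trans h2')
    · exact add_right_cancel (h3.symm.trans h3')
  have hsecinj : Set.InjOn sec T' := by
    intro u hu v hv he
    rw [← (hsec u (hT'T (Finset.mem_coe.1 hu))).2, ← (hsec v (hT'T (Finset.mem_coe.1 hv))).2, he]
  refine ⟨T'.image sec, ?_, ?_, ?_⟩
  · intro c hc
    obtain ⟨u, hu, rfl⟩ := Finset.mem_image.1 hc
    exact (hsec u (hT'T hu)).1
  · rw [Finset.card_image_of_injOn hsecinj, hT'c]
  · have h1 := union_le (T'.image sec) r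
      (fun c hc => by
        obtain ⟨u, hu, rfl⟩ := Finset.mem_image.1 hc
        exact hEr _ (hsec u (hT'T hu)).1) τ
      (fun c hc => by
        obtain ⟨u, hu, rfl⟩ := Finset.mem_image.1 hc
        exact hτ _ (hsec u (hT'T hu)).1) T'
      (fun c hc => by
        obtain ⟨u, hu, rfl⟩ := Finset.mem_image.1 hc
        rw [(hsec u (hT'T hu)).2]
        exact hu)
    rw [Finset.card_image_of_injOn hsecinj, hT'c] at h1
    refine h1.trans (Nat.add_le_add_left ?_ _)
    -- the vertices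
    have hZ : ∀ l : ℕ, ∃ v : V × V × V, (∃ i j, i < m ∧ j < m ∧ i + j = l) →
        v ∈ T ∧ γ v.2.2 = a + (w * l) • h + b := by
      intro l
      by_cases hl : ∃ i j, i < m ∧ j < m ∧ i + j = l
      · obtain ⟨i, j, hi, hj, rfl⟩ := hl
        refine ⟨t i j, fun _ => ?_⟩
        obtain ⟨h1, h2, h3⟩ := ht i j hi hj
        refine ⟨h1, ?_⟩
        rw [← hTrel _ h1, h2, h3, mul_add, add_nsmul]
        simp only [add_assoc]
      · exact ⟨(v₀, v₀, v₀), fun h => absurd h hl⟩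
    choose Z hZ using hZ
    have hteq : ∀ i j : ℕ, i < m → j < m →
        t i j = ((t i 0).1, (t 0 j).2.1, (Z (i + j)).2.2) := by
      intro i j hi hj
      obtain ⟨h1, h2, h3⟩ := ht i j hi hj
      obtain ⟨g1, g2, g3⟩ := ht i 0 hi (by omega)
      obtain ⟨f1, f2, f3⟩ := ht 0 j (by omega) hj
      obtain ⟨z1, z2⟩ := hZ (i + j) ⟨i, j, hi, hj, rfl⟩
      have e1 : (t i j).1 = (t i 0).1 := hα' _ h1 _ g1 (by rw [h2, g2])
      have e2 : (t i j).2.1 = (t 0 j).2.1 := hβ' _ h1 _ f1 (by rw [h3, f3])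
      have e3 : (t i j).2.2 = (Z (i + j)).2.2 := hγ' _ h1 _ z1 (by
        rw [z2, ← hTrel _ h1, h2, h3, mul_add, add_nsmul]
        simp only [add_assoc])
      exact Prod.ext e1 (Prod.ext e2 e3)
    have k1 : (T'.image fun u => u.1).card ≤ (J.image Prod.fst).card := by
      have : (T'.image fun u => u.1) ⊆ (J.image Prod.fst).image (fun i => (t i 0).1) := by
        intro v hv
        obtain ⟨u, hu, rfl⟩ := Finset.mem_image.1 hv
        obtain ⟨z, hz, rfl⟩ := Finset.mem_image.1 hu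
        rw [hteq z.1 z.2 (hJ z hz).1 (hJ z hz).2]
        exact Finset.mem_image.2 ⟨z.1, Finset.mem_image_of_mem _ hz, rfl⟩
      exact (Finset.card_le_card this).trans Finset.card_image_le
    have k2 : (T'.image fun u => u.2.1).card ≤ (J.image Prod.snd).card := by
      have : (T'.image fun u => u.2.1) ⊆ (J.image Prod.snd).image (fun j => (t 0 j).2.1) := by
        intro v hv
        obtain ⟨u, hu, rfl⟩ := Finset.mem_image.1 hv
        obtain ⟨z, hz, rfl⟩ := Finset.mem_image.1 hu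
        rw [hteq z.1 z.2 (hJ z hz).1 (hJ z hz).2]
        exact Finset.mem_image.2 ⟨z.2, Finset.mem_image_of_mem _ hz, rfl⟩
      exact (Finset.card_le_card this).trans Finset.card_image_le
    have k3 : (T'.image fun u => u.2.2).card ≤ (J.image fun z => z.1 + z.2).card := by
      have : (T'.image fun u => u.2.2) ⊆ (J.image fun z => z.1 + z.2).image (fun l => (Z l).2.2) := by
        intro v hv
        obtain ⟨u, hu, rfl⟩ := Finset.mem_image.1 hv
        obtain ⟨z, hz, rfl⟩ := Finset.mem_image.1 hu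
        rw [hteq z.1 z.2 (hJ z hz).1 (hJ z hz).2]
        exact Finset.mem_image.2 ⟨z.1 + z.2, Finset.mem_image.2 ⟨z, hz, rfl⟩, rfl⟩
      exact (Finset.card_le_card this).trans Finset.card_image_le
    omega

end Inf

end Run7.h50.BES
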