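import Mathlib
import Pool.Agent.Run7.h50.BES.IConfig

/-!
# Labels which are taken a bounded number of times
-/

set_option autoImplicit false
set_option linter.unusedSectionVars false
set_option linter.unusedVariables false

namespace Run7.h50.BES.Inf

open Finset
open scoped Pointwise

theorem idx {V G : Type} [Fintype V] (f : V → G) (d : ℕ)
    (hf : ∀ W : Finset V, (∀ z ∈ W, ∀ z' ∈ W, f z = f z') → W.card ≤ d) :
    ∃ ι : V → ℕ, (∀ v, ι v < d) ∧ ∀ v v', f v = f v' → ι v = ι v' → v = v' := by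
  classical
  set F : G → Finset V := fun g => univ.filter fun v => f v = g with hF
  have hFc : ∀ g, (F g).card ≤ d := fun g => hf _ fun z hz z' hz' =>
    (Finset.mem_filter.1 hz).2.trans (Finset.mem_filter.1 hz').2.symm
  have hmem : ∀ v, v ∈ F (f v) := fun v => Finset.mem_filter.2 ⟨Finset.mem_univ _, rfl⟩
  set j : G → V → ℕ := fun g v => if h : v ∈ F g then ((F g).equivFin ⟨v, h⟩ : Fin _).val else 0
    with hj
  refine ⟨fun v => j (f v) v, ?_, ?_⟩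
  · intro v
    simp only [hj, dif_pos (hmem v)]
    exact lt_of_lt_of_le (Fin.is_lt _) (hFc _)
  · intro v v' h1 h2
    have hv' : v' ∈ F (f v) := by rw [h1]; exact hmem v'
    have h2 : j (f v) v = j (f v') v' := h2
    rw [← h1] at h2
    simp only [hj, dif_pos (hmem v), dif_pos hv'] at h2
    have h3 := (F (f v)).equivFin.injective (Fin.ext h2)
    exact congrArg Subtype.val h3

theorem config_mult (m : ℕ) (hm : 1 ≤ m) (ε : ℝ) (hε : 0 < ε) (d : ℕ) :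
    ∃ (P : ℕ) (κ : ℝ), 0 < κ ∧
    ∀ (G V : Type) [AddGroup G] [Fintype V] [DecidableEq V]
      (E : Finset (Finset V)) (r : ℕ) (τ : Finset V → V × V × V) (α β γ : V → G),
      (∀ a ∈ E, a.card = r) → (∀ a ∈ E, Marks a (τ a)) →
      (∀ W : Finset V, (∀ z ∈ W, ∀ z' ∈ W, α z = α z') → W.card ≤ d) →
      (∀ W : Finset V, (∀ z ∈ W, ∀ z' ∈ W, β z = β z') → W.card ≤ d) →
      (∀ W : Finset V, (∀ z ∈ W, ∀ z' ∈ W, γ z = γ z') → W.card ≤ d) →
      (∀ a ∈ E, α (τ a).1 + β (τ a).2.1 = γ (τ a).2.2) → 0 < Fintype.card V →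
      ε * (Fintype.card V : ℝ) ^ 2 ≤ E.card →
      (∀ W : Finset G, (∀ g ∈ W, (∃ u v u' v', g = (-α u + α v) + (-α u' + α v')) ∧
        ∃ j, 0 < j ∧ j < P ∧ j • g = 0) → (W.card : ℝ) ≤ κ * Fintype.card V) →
      ∀ J : Finset (ℕ × ℕ), (∀ z ∈ J, z.1 < m ∧ z.2 < m) → J.Nonempty →
      ∃ E' ⊆ E, E'.card = J.card ∧ (E'.biUnion id).card ≤ J.card * (r - 3) +
        ((J.image Prod.fst).card + (J.image Prod.snd).card +
          (J.image fun z => z.1 + z.2).card) := by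
  classical
  obtain ⟨P, κ, hκ, h⟩ := config m hm (ε / ((d + 1) ^ 3 : ℕ)) (by positivity)
  refine ⟨P, κ, hκ, ?_⟩
  intro G V _ _ _ E r τ α β γ hEr hτ hα hβ hγ hrel hV hE hW J hJ hJne
  obtain ⟨ι₁, hι₁, hι₁'⟩ := idx α d hα
  obtain ⟨ι₂, hι₂, hι₂'⟩ := idx β d hβ
  obtain ⟨ι₃, hι₃, hι₃'⟩ := idx γ d hγ
  have hd : 0 < d := by
    obtain ⟨v⟩ := Fintype.card_pos_iff.1 hV
    have := hα {v} (fun z hz z' hz' => by
      rw [Finset.mem_singleton] at hz hz'
      rw [hz, hz'])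
    rw [Finset.card_singleton] at this
    omega
  set c : Finset V → ℕ × ℕ × ℕ := fun a => (ι₁ (τ a).1, ι₂ (τ a).2.1, ι₃ (τ a).2.2) with hc
  set R := Finset.range d ×ˢ (Finset.range d ×ˢ Finset.range d) with hR
  have hRc : R.card = d ^ 3 := by
    rw [hR, Finset.card_product, Finset.card_product, Finset.card_range]
    ring
  have hmaps : ∀ a ∈ E, c a ∈ R := fun a _ => Finset.mem_product.2
    ⟨Finset.mem_range.2 (hι₁ _), Finset.mem_product.2
      ⟨Finset.mem_range.2 (hι₂ _), Finset.mem_range.2 (hι₃ _)⟩⟩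
  have hRne : R.Nonempty := ⟨(0, 0, 0), Finset.mem_product.2
    ⟨Finset.mem_range.2 hd, Finset.mem_product.2 ⟨Finset.mem_range.2 hd, Finset.mem_range.2 hd⟩⟩⟩
  have hRpos : (0 : ℝ) < R.card := by exact_mod_cast hRne.card_pos
  obtain ⟨y, hy, hyb⟩ := Finset.exists_le_card_fiber_of_nsmul_le_card_of_maps_to hmaps hRne
    (b := (E.card : ℝ) / R.card) (by
      rw [nsmul_eq_mul, mul_div_cancel₀ _ hRpos.ne'])
  set E₁ := E.filter fun a => c a = y with hE₁
  have hsub : E₁ ⊆ E := Finset.filter_subset _ _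
  have hE₁c : ε / ((d + 1) ^ 3 : ℕ) * (Fintype.card V : ℝ) ^ 2 ≤ E₁.card := by
    refine le_trans ?_ hyb
    rw [hRc, le_div_iff₀ (by rw [← hRc]; exact hRpos)]
    calc ε / ((d + 1) ^ 3 : ℕ) * (Fintype.card V : ℝ) ^ 2 * ((d ^ 3 : ℕ) : ℝ)
        ≤ ε / ((d + 1) ^ 3 : ℕ) * (Fintype.card V : ℝ) ^ 2 * (((d + 1) ^ 3 : ℕ) : ℝ) := by
          refine mul_le_mul_of_nonneg_left ?_ (by positivity)
          exact_mod_cast Nat.pow_le_pow_left (Nat.le_succ d) 3
      _ = ε * (Fintype.card V : ℝ) ^ 2 := by field_simp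
      _ ≤ E.card := hE
  have key : ∀ a ∈ E₁, ∀ b ∈ E₁, ι₁ (τ a).1 = ι₁ (τ b).1 ∧ ι₂ (τ a).2.1 = ι₂ (τ b).2.1 ∧
      ι₃ (τ a).2.2 = ι₃ (τ b).2.2 := by
    intro a ha b hb
    have h1 := (Finset.mem_filter.1 ha).2.trans (Finset.mem_filter.1 hb).2.symm
    simp only [hc, Prod.mk.injEq] at h1
    exact h1
  obtain ⟨E', hE', hE'c, hE'u⟩ := h G V E₁ r τ α β γ (fun a ha => hEr a (hsub ha))
    (fun a ha => hτ a (hsub ha))
    (fun a ha b hb he => hι₁' _ _ he (key a ha b hb).1)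
    (fun a ha b hb he => hι₂' _ _ he (key a ha b hb).2.1)
    (fun a ha b hb he => hι₃' _ _ he (key a ha b hb).2.2)
    (fun a ha => hrel a (hsub ha)) hV hE₁c hW J hJ hJne
  exact ⟨E', hE'.trans hsub, hE'c, hE'u⟩

end Run7.h50.BES.Inf
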